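import Mathlib

/-!
Approximately ultrametric matrices pair nonnegatively (up to a bounded error) with every matrix
all of whose principal block sums are nonnegative.
-/

namespace Pool.Agent.H195.MV

/-- total sum over a product splits along a subset -/
theorem sum_split {ι : Type*} [DecidableEq ι] (A B : Finset ι) (hB : B ⊆ A) (g : ι → ι → ℝ) :
    ∑ i ∈ A, ∑ k ∈ A, g i k = (∑ i ∈ B, ∑ k ∈ B, g i k) + (∑ i ∈ A \ B, ∑ k ∈ A \ B, g i k) +
      ((∑ i ∈ B, ∑ k ∈ A \ B, g i k) + ∑ i ∈ A \ B, ∑ k ∈ B, g i k) := by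
  have h1 : ∀ f : ι → ℝ, ∑ i ∈ A, f i = ∑ i ∈ B, f i + ∑ i ∈ A \ B, f i := by
    intro f
    rw [add_comm]
    exact (Finset.sum_sdiff hB).symm
  rw [h1]
  simp only [h1 (fun k => g _ k), Finset.sum_add_distrib]
  ring

theorem ultra_approx {ι : Type*} [DecidableEq ι] (W : ι → ι → ℝ) (δ w : ℝ) (hδ : 0 ≤ δ)
    (hw : ∀ i k, |W i k| ≤ w) (N : ℕ) :
    ∀ (c : ℕ) (A : Finset ι), A.card = c → A.card ≤ N →
    (∀ e ⊆ A, 0 ≤ ∑ i ∈ e, ∑ k ∈ e, W i k) → ∀ s : ι → ι → ℝ,
    (∀ i ∈ A, ∀ k ∈ A, 0 ≤ s i k) → (∀ i k, s i k = s k i) → (∀ i k, s i k ≤ s i i) →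
    (∀ i k l, i ≠ k → i ≠ l → k ≠ l → min (s i k) (s i l) - δ ≤ s k l) →
    -(((c - 1 : ℕ) : ℝ) * (2 * (N:ℝ) ^ 2 * w * (N * δ))) ≤ ∑ i ∈ A, ∑ k ∈ A, W i k * s i k := by
  intro c
  induction c using Nat.strong_induction_on with
  | _ c ih =>
  intro A hAc hAN hW s hs0 hsymm hdiag hult
  set K : ℝ := 2 * (N:ℝ) ^ 2 * w * (N * δ) with hK
  have hw0 : 0 ≤ w ∨ A = ∅ := by
    rcases A.eq_empty_or_nonempty with h | ⟨i, _⟩
    · exact Or.inr h
    · exact Or.inl ((abs_nonneg _).trans (hw i i))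
  rcases A.eq_empty_or_nonempty with hA | hA
  · subst hA
    simp only [Finset.card_empty] at hAc
    subst hAc
    simp
  have hw0 : 0 ≤ w := by
    obtain ⟨i, _⟩ := hA
    exact (abs_nonneg _).trans (hw i i)
  have hK0 : 0 ≤ K := by positivity
  have hc1 : 1 ≤ c := by rw [← hAc]; exact hA.card_pos
  -- the minimum
  obtain ⟨⟨i0, k0⟩, hmem, hmin⟩ := (A ×ˢ A).exists_min_image (fun x => s x.1 x.2)
    (hA.product hA)
  rw [Finset.mem_product] at hmem
  obtain ⟨hi0, hk0⟩ : i0 ∈ A ∧ k0 ∈ A := hmem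
  set μ : ℝ := s i0 k0 with hμ
  have hμ0 : 0 ≤ μ := hs0 _ hi0 _ hk0
  have hminle : ∀ i ∈ A, ∀ k ∈ A, μ ≤ s i k := fun i hi k hk =>
    hmin (i, k) (Finset.mem_product.2 ⟨hi, hk⟩)
  set s' : ι → ι → ℝ := fun i k => s i k - μ with hs'
  have hsum : ∑ i ∈ A, ∑ k ∈ A, W i k * s i k =
      μ * (∑ i ∈ A, ∑ k ∈ A, W i k) + ∑ i ∈ A, ∑ k ∈ A, W i k * s' i k := by
    rw [Finset.mul_sum, ← Finset.sum_add_distrib]
    apply Finset.sum_congr rfl
    intro i _
    rw [Finset.mul_sum, ← Finset.sum_add_distrib]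
    apply Finset.sum_congr rfl
    intro k _
    simp only [hs']
    ring
  have hge : ∑ i ∈ A, ∑ k ∈ A, W i k * s' i k ≤ ∑ i ∈ A, ∑ k ∈ A, W i k * s i k := by
    rw [hsum]
    have := mul_nonneg hμ0 (hW A (Finset.Subset.refl _))
    linarith
  refine le_trans ?_ hge
  have hs'0 : ∀ i ∈ A, ∀ k ∈ A, 0 ≤ s' i k := fun i hi k hk => sub_nonneg.2 (hminle i hi k hk)
  have hs'symm : ∀ i k, s' i k = s' k i := fun i k => by simp only [hs', hsymm i k]
  have hs'diag : ∀ i k, s' i k ≤ s' i i := fun i k => sub_le_sub_right (hdiag i k) _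
  have hs'ult : ∀ i k l, i ≠ k → i ≠ l → k ≠ l → min (s' i k) (s' i l) - δ ≤ s' k l := by
    intro i k l h1 h2 h3
    have := hult i k l h1 h2 h3
    simp only [hs']
    rw [min_sub_sub_right]
    linarith
  have hs'min : s' i0 k0 = 0 := by simp [hs', hμ]
  by_cases hz : ∃ i ∈ A, s' i i = 0
  · obtain ⟨i, hi, hii⟩ := hz
    have hrow : ∀ k ∈ A, s' i k = 0 := fun k hk =>
      le_antisymm ((hs'diag i k).trans_eq hii) (hs'0 i hi k hk)
    have hcol : ∀ k ∈ A, s' k i = 0 := fun k hk => by rw [hs'symm]; exact hrow k hk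
    have hsub : {i} ⊆ A := Finset.singleton_subset_iff.2 hi
    rw [sum_split A {i} hsub]
    have e1 : ∑ a ∈ ({i} : Finset ι), ∑ k ∈ ({i} : Finset ι), W a k * s' a k = 0 := by
      simp [hii]
    have e2 : ∑ a ∈ ({i} : Finset ι), ∑ k ∈ A \ {i}, W a k * s' a k = 0 := by
      rw [Finset.sum_singleton]
      exact Finset.sum_eq_zero fun k hk => by
        rw [hrow k (Finset.mem_sdiff.1 hk).1, mul_zero]
    have e3 : ∑ a ∈ A \ {i}, ∑ k ∈ ({i} : Finset ι), W a k * s' a k = 0 := by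
      apply Finset.sum_eq_zero
      intro k hk
      rw [Finset.sum_singleton, hcol k (Finset.mem_sdiff.1 hk).1, mul_zero]
    rw [e1, e2, e3]
    have hcard : (A \ {i}).card = c - 1 := by
      rw [Finset.sdiff_singleton_eq_erase, Finset.card_erase_of_mem hi, hAc]
    have h1 := ih (c - 1) (by omega) (A \ {i}) hcard (by omega)
      (fun e he => hW e (he.trans Finset.sdiff_subset)) s'
      (fun a ha k hk => hs'0 a (Finset.mem_sdiff.1 ha).1 k (Finset.mem_sdiff.1 hk).1)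
      hs'symm hs'diag hs'ult
    have h2 : ((c - 1 - 1 : ℕ) : ℝ) * K ≤ ((c - 1 : ℕ) : ℝ) * K := by
      apply mul_le_mul_of_nonneg_right _ hK0
      exact_mod_cast Nat.sub_le _ _
    linarith
  · push Not at hz
    have hne : i0 ≠ k0 := by
      rintro rfl
      exact hz i0 hi0 hs'min
    -- threshold
    obtain ⟨t, ht, hfree⟩ : ∃ t < c, ∀ j ∈ A.erase i0, ¬ ((t:ℝ) * δ < s' i0 j ∧
        s' i0 j ≤ ((t:ℝ) + 1) * δ) := by
      by_contra hcon
      push Not at hcon
      have : Nonempty ι := ⟨i0⟩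
      choose! g hg using hcon
      have hmaps : ∀ a ∈ Finset.range c, g a ∈ A.erase i0 := fun a ha =>
        (hg a (Finset.mem_range.1 ha)).1
      have hcardlt : (A.erase i0).card < (Finset.range c).card := by
        rw [Finset.card_erase_of_mem hi0, Finset.card_range, hAc]
        omega
      obtain ⟨a, ha, b, hb, hab, hgab⟩ :=
        Finset.exists_ne_map_eq_of_card_lt_of_maps_to hcardlt hmaps
      have ha' := (hg a (Finset.mem_range.1 ha)).2
      have hb' := (hg b (Finset.mem_range.1 hb)).2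
      rw [hgab] at ha'
      rcases lt_or_gt_of_ne hab with h | h
      · have h1 : (a:ℝ) + 1 ≤ b := by exact_mod_cast h
        have h2 := mul_le_mul_of_nonneg_right h1 hδ
        linarith [ha'.2, hb'.1]
      · have h1 : (b:ℝ) + 1 ≤ a := by exact_mod_cast h
        have h2 := mul_le_mul_of_nonneg_right h1 hδ
        linarith [hb'.2, ha'.1]
    set B : Finset ι := A.filter (fun j => j = i0 ∨ (t:ℝ) * δ < s' i0 j) with hB
    have hBA : B ⊆ A := Finset.filter_subset _ _
    have hi0B : i0 ∈ B := Finset.mem_filter.2 ⟨hi0, Or.inl rfl⟩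
    have hk0B : k0 ∉ B := by
      intro h
      rcases (Finset.mem_filter.1 h).2 with h1 | h1
      · exact hne h1.symm
      · rw [hs'min] at h1
        have : 0 ≤ (t:ℝ) * δ := by positivity
        linarith
    have hk0C : k0 ∈ A \ B := Finset.mem_sdiff.2 ⟨hk0, hk0B⟩
    have hcross : ∀ j ∈ B, ∀ l ∈ A \ B, s' j l ≤ ((t:ℝ) + 1) * δ := by
      intro j hj l hl
      have hl' := Finset.mem_sdiff.1 hl
      have hlne : l ≠ i0 := fun h => hl'.2 (by rw [h]; exact hi0B)
      have hls : s' i0 l ≤ (t:ℝ) * δ := by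
        by_contra h
        push Not at h
        exact hl'.2 (Finset.mem_filter.2 ⟨hl'.1, Or.inr h⟩)
      have htd : (t:ℝ) * δ ≤ ((t:ℝ) + 1) * δ := mul_le_mul_of_nonneg_right (by linarith) hδ
      by_cases hji : j = i0
      · rw [hji]; linarith
      · have hj' := (Finset.mem_filter.1 hj)
        have h1 : (t:ℝ) * δ < s' i0 j := by
          rcases hj'.2 with h | h
          · exact absurd h hji
          · exact h
        have h2 : ((t:ℝ) + 1) * δ < s' i0 j := by
          by_contra h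
          push Not at h
          exact hfree j (Finset.mem_erase.2 ⟨hji, hj'.1⟩) ⟨h1, h⟩
        have hjl : j ≠ l := fun h => hl'.2 (by rw [← h]; exact hj)
        have h3 := hs'ult j i0 l hji hjl hlne.symm
        by_contra h4
        push Not at h4
        have h5 : ((t:ℝ) + 1) * δ < min (s' j i0) (s' j l) := lt_min (by rw [hs'symm]; exact h2) h4
        linarith
    have hBc : B.card < c := by
      rw [← hAc]
      exact Finset.card_lt_card ⟨hBA, fun h => hk0B (h hk0)⟩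
    have hCc : (A \ B).card < c := by
      rw [← hAc]
      exact Finset.card_lt_card ⟨Finset.sdiff_subset, fun h => (Finset.mem_sdiff.1 (h hi0)).2 hi0B⟩
    have hcardsum : B.card + (A \ B).card = c := by
      rw [← hAc, add_comm]
      exact Finset.card_sdiff_add_card_eq_card hBA
    have hB1 : 1 ≤ B.card := Finset.card_pos.2 ⟨i0, hi0B⟩
    have hC1 : 1 ≤ (A \ B).card := Finset.card_pos.2 ⟨k0, hk0C⟩
    have h1 := ih B.card hBc B rfl (by omega)
      (fun e he => hW e (he.trans hBA)) s'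
      (fun a ha k hk => hs'0 a (hBA ha) k (hBA hk)) hs'symm hs'diag hs'ult
    have h2 := ih (A \ B).card hCc (A \ B) rfl (by omega)
      (fun e he => hW e (he.trans Finset.sdiff_subset)) s'
      (fun a ha k hk => hs'0 a (Finset.mem_sdiff.1 ha).1 k (Finset.mem_sdiff.1 hk).1)
      hs'symm hs'diag hs'ult
    have htN : ((t:ℝ) + 1) ≤ N := by exact_mod_cast (by omega : t + 1 ≤ N)
    have hentry : ∀ j ∈ B, ∀ l ∈ A \ B, -(w * (N * δ)) ≤ W j l * s' j l := by
      intro j hj l hl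
      have hs1 : 0 ≤ s' j l := hs'0 j (hBA hj) l (Finset.mem_sdiff.1 hl).1
      have hs2 : s' j l ≤ N * δ := (hcross j hj l hl).trans (mul_le_mul_of_nonneg_right htN hδ)
      have h3 : |W j l * s' j l| ≤ w * (N * δ) := by
        rw [abs_mul, abs_of_nonneg hs1]
        exact mul_le_mul (hw j l) hs2 hs1 hw0
      exact (abs_le.1 h3).1
    have hentry' : ∀ j ∈ A \ B, ∀ l ∈ B, -(w * (N * δ)) ≤ W j l * s' j l := by
      intro l hl j hj
      have hs1 : 0 ≤ s' l j := hs'0 l (Finset.mem_sdiff.1 hl).1 j (hBA hj)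
      have hs2 : s' l j ≤ N * δ := by
        rw [hs'symm]
        exact (hcross j hj l hl).trans (mul_le_mul_of_nonneg_right htN hδ)
      have h3 : |W l j * s' l j| ≤ w * (N * δ) := by
        rw [abs_mul, abs_of_nonneg hs1]
        exact mul_le_mul (hw l j) hs2 hs1 hw0
      exact (abs_le.1 h3).1
    have hwd : 0 ≤ w * (N * δ) := by positivity
    have hBN : (B.card : ℝ) ≤ N := by exact_mod_cast (by omega : B.card ≤ N)
    have hCN : ((A \ B).card : ℝ) ≤ N := by exact_mod_cast (by omega : (A \ B).card ≤ N)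
    have hx : (B.card : ℝ) * (A \ B).card ≤ (N:ℝ) ^ 2 := by
      rw [sq]
      exact mul_le_mul hBN hCN (Nat.cast_nonneg _) (Nat.cast_nonneg _)
    have h3 : -((N:ℝ) ^ 2 * (w * (N * δ))) ≤ ∑ i ∈ B, ∑ k ∈ A \ B, W i k * s' i k := by
      have h4 : ∑ i ∈ B, ∑ k ∈ A \ B, (-(w * (N * δ))) ≤ ∑ i ∈ B, ∑ k ∈ A \ B, W i k * s' i k :=
        Finset.sum_le_sum fun i hi => Finset.sum_le_sum fun k hk => hentry i hi k hk
      simp only [Finset.sum_const, nsmul_eq_mul] at h4
      have h5 := mul_le_mul_of_nonneg_right hx hwd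
      linarith
    have h4 : -((N:ℝ) ^ 2 * (w * (N * δ))) ≤ ∑ i ∈ A \ B, ∑ k ∈ B, W i k * s' i k := by
      have h4 : ∑ i ∈ A \ B, ∑ k ∈ B, (-(w * (N * δ))) ≤ ∑ i ∈ A \ B, ∑ k ∈ B, W i k * s' i k :=
        Finset.sum_le_sum fun i hi => Finset.sum_le_sum fun k hk => hentry' i hi k hk
      simp only [Finset.sum_const, nsmul_eq_mul] at h4
      have h5 := mul_le_mul_of_nonneg_right hx hwd
      linarith
    rw [sum_split A B hBA]
    have h5 : ((B.card - 1 : ℕ) : ℝ) * K + (((A \ B).card - 1 : ℕ) : ℝ) * K + K =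
        ((c - 1 : ℕ) : ℝ) * K := by
      have : ((B.card - 1 : ℕ) : ℝ) + (((A \ B).card - 1 : ℕ) : ℝ) + 1 = ((c - 1 : ℕ) : ℝ) := by
        have h6 : (B.card - 1) + ((A \ B).card - 1) + 1 = c - 1 := by omega
        exact_mod_cast h6
      rw [← this]; ring
    have h6 : K = 2 * ((N:ℝ) ^ 2 * (w * (N * δ))) := by rw [hK]; ring
    linarith

end Pool.Agent.H195.MV
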