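import Mathlib
import Pool.Graph.R_seed8.Helper772.MV.Upper
import Pool.Agent.H195.MV.Ultra

open MeasureTheory Metric Set
open scoped ENNReal Real

namespace Pool.Agent.H195.MV

open MeanVal

/-- certificate which may use the approximate ultrametric inequality -/
def CertU (N : ℕ) (p Vs : ℝ) (σ : Fin N → ℝ) : Prop :=
  ∃ C₃ : ℝ, ∀ (κ t V C₁ C₂ : ℝ) (u τ : Fin N → ℝ) (s : Fin N → Fin N → ℝ), κ ≤ 1 →
    (∀ i, 0 ≤ u i) → Monotone u → (∀ i k, s i k = s k i) → (∀ i k, - Real.log 2 ≤ s i k) →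
    (∀ i k, s i k ≤ τ i) → (∀ i, s i i = τ i) → (∀ i, 0 ≤ τ i) → (∀ i, τ i ≤ t) →
    (∀ i k l, i ≠ k → i ≠ l → k ≠ l → min (s i k) (s i l) - Real.log 2 ≤ s k l) →
    (∀ i, V + ∑ k ∈ Finset.univ.erase i, s i k - C₁ ≤ u i - τ i / 2) →
    (κ * ∑ i, ∑ j, σ i * σ j * min (u i) (u j) ≤
      2 * p * (∑ i, ∑ j, σ i * σ j * s i j) + C₂) →
    V ≤ Vs * t + (1 - κ) * (∑ i, ∑ j, σ i * σ j * min (u i) (u j)) / (2 * p)
      + C₁ + C₂ / (2 * p) + C₃

/-- the matrix whose principal block sums must be nonnegative -/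
noncomputable def Wm {N : ℕ} (lam μ σ : Fin N → ℝ) (i k : Fin N) : ℝ :=
  if i = k then lam i / 2 + μ i - σ i ^ 2 else (lam i + lam k) / 2 - σ i * σ k

theorem certU_of (N : ℕ) (p : ℝ) (hp : 0 < p)
    (lam μ σ : Fin N → ℝ) (hlam : ∀ i, 0 ≤ lam i) (hlam1 : ∑ i, lam i = 1)
    (hμ : ∀ i, 0 ≤ μ i)
    (htail : ∀ j, ∑ i ∈ Finset.univ.filter (fun i => j ≤ i), lam i ≤
      (∑ i ∈ Finset.univ.filter (fun i => j ≤ i), σ i) ^ 2 / (2 * p))
    (hsub : ∀ e : Finset (Fin N), 0 ≤ ∑ i ∈ e, ∑ k ∈ e, Wm lam μ σ i k) :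
    CertU N p (∑ i, μ i) σ := by
  classical
  set w : ℝ := ∑ i, ∑ k, |Wm lam μ σ i k| with hw
  have hwle : ∀ i k, |Wm lam μ σ i k| ≤ w := by
    intro i k
    have h1 : |Wm lam μ σ i k| ≤ ∑ k, |Wm lam μ σ i k| :=
      Finset.single_le_sum (f := fun k => |Wm lam μ σ i k|) (fun _ _ => abs_nonneg _)
        (Finset.mem_univ k)
    refine h1.trans ?_
    exact Finset.single_le_sum (f := fun i => ∑ k, |Wm lam μ σ i k|)
      (fun _ _ => Finset.sum_nonneg fun _ _ => abs_nonneg _) (Finset.mem_univ i)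
  have hlog2 : 0 < Real.log 2 := Real.log_pos (by norm_num)
  refine ⟨((N - 1 : ℕ) : ℝ) * (2 * (N:ℝ) ^ 2 * w * (N * Real.log 2)) +
    Real.log 2 * ∑ i, ∑ k, Wm lam μ σ i k, ?_⟩
  intro κ t V C₁ C₂ u τ s hκ hu0 hmono hsymm hslow hsτ hdiag _ hτt hult h1 h2
  have hA := Cert.cert_aux p hp N lam σ u hu0 hmono (fun j => by
    rw [← Finset.sum_filter, ← Finset.sum_filter]
    exact htail j)
  set Q := ∑ i, ∑ j, σ i * σ j * min (u i) (u j) with hQ
  set T := ∑ i, ∑ j, σ i * σ j * s i j with hT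
  -- ultrametric pairing
  have hU := ultra_approx (Wm lam μ σ) (Real.log 2) w hlog2.le hwle N N Finset.univ
    (by simp) (by simp) (fun e _ => hsub e) (fun i k => s i k + Real.log 2)
    (fun i _ k _ => by have := hslow i k; linarith)
    (fun i k => by rw [hsymm]) (fun i k => by rw [hdiag]; linarith [hsτ i k])
    (fun i k l h3 h4 h5 => by
      have := hult i k l h3 h4 h5
      rw [min_add_add_right]
      linarith)
  have hU' : ∑ i, ∑ k, Wm lam μ σ i k * (s i k + Real.log 2) =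
      ∑ i, ∑ k, Wm lam μ σ i k * s i k + Real.log 2 * ∑ i, ∑ k, Wm lam μ σ i k := by
    rw [Finset.mul_sum, ← Finset.sum_add_distrib]
    apply Finset.sum_congr rfl
    intro i _
    rw [Finset.mul_sum, ← Finset.sum_add_distrib]
    apply Finset.sum_congr rfl
    intro k _
    ring
  rw [hU'] at hU
  -- expand the pairing
  have hWs : ∑ i, ∑ k, Wm lam μ σ i k * s i k =
      ∑ i, lam i * ∑ k, s i k - T + ∑ i, μ i * τ i - ∑ i, lam i * τ i / 2 := by
    have e1 : ∀ i k, Wm lam μ σ i k * s i k =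
        (lam i * s i k / 2 + lam k * s i k / 2 - σ i * σ k * s i k) +
        (if i = k then (μ i * τ i - lam i * τ i / 2) else 0) := by
      intro i k
      unfold Wm
      by_cases h : i = k
      · subst h
        simp only [if_true]
        rw [hdiag]
        ring
      · simp only [h, if_false]
        ring
    simp_rw [e1, Finset.sum_add_distrib, Finset.sum_sub_distrib, Finset.sum_add_distrib,
      Finset.sum_ite_eq, Finset.mem_univ, if_true, Finset.sum_sub_distrib]
    have e2 : ∑ i, ∑ k, lam k * s i k / 2 = ∑ i, ∑ k, lam i * s i k / 2 := by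
      rw [Finset.sum_comm]
      apply Finset.sum_congr rfl
      intro i _
      apply Finset.sum_congr rfl
      intro k _
      rw [hsymm k i]
    rw [e2]
    have e3 : ∑ i, lam i * ∑ k, s i k =
        ∑ i, ∑ k, lam i * s i k / 2 + ∑ i, ∑ k, lam i * s i k / 2 := by
      rw [← Finset.sum_add_distrib]
      apply Finset.sum_congr rfl
      intro i _
      rw [← Finset.sum_add_distrib, Finset.mul_sum]
      apply Finset.sum_congr rfl
      intro k _
      ring
    rw [e3, ← hT]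
    ring
  have hμt : ∑ i, μ i * τ i ≤ (∑ i, μ i) * t := by
    rw [Finset.sum_mul]
    exact Finset.sum_le_sum fun i _ => mul_le_mul_of_nonneg_left (hτt i) (hμ i)
  -- convex combination of the constraints
  have hB : V + ∑ i, lam i * (∑ k, s i k - τ i) - C₁ ≤
      ∑ i, lam i * u i - ∑ i, lam i * τ i / 2 := by
    have h3 : ∑ i, lam i * (V + (∑ k, s i k - τ i) - C₁) ≤ ∑ i, lam i * (u i - τ i / 2) := by
      apply Finset.sum_le_sum
      intro i _
      apply mul_le_mul_of_nonneg_left _ (hlam i)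
      have h4 := h1 i
      have h5 : ∑ k ∈ Finset.univ.erase i, s i k = ∑ k, s i k - τ i := by
        rw [← Finset.sum_erase_add Finset.univ _ (Finset.mem_univ i), hdiag i]
        ring
      rw [h5] at h4
      exact h4
    have e1 : ∑ i, lam i * (V + (∑ k, s i k - τ i) - C₁) =
        V + ∑ i, lam i * (∑ k, s i k - τ i) - C₁ := by
      have : ∀ i, lam i * (V + (∑ k, s i k - τ i) - C₁) =
          lam i * (V - C₁) + lam i * (∑ k, s i k - τ i) := by
        intro i
        ring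
      simp_rw [this]
      rw [Finset.sum_add_distrib, ← Finset.sum_mul, hlam1]
      ring
    have e2 : ∑ i, lam i * (u i - τ i / 2) = ∑ i, lam i * u i - ∑ i, lam i * τ i / 2 := by
      rw [← Finset.sum_sub_distrib]
      apply Finset.sum_congr rfl
      intro i _
      ring
    rw [e1, e2] at h3
    exact h3
  have hC : Q / (2 * p) ≤ T + C₂ / (2 * p) + (1 - κ) * Q / (2 * p) := by
    have h2p : 0 < 2 * p := by linarith
    have h3 : κ * Q / (2 * p) ≤ (2 * p * T + C₂) / (2 * p) := by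
      apply div_le_div_of_nonneg_right h2 h2p.le
    have e1 : (2 * p * T + C₂) / (2 * p) = T + C₂ / (2 * p) := by
      field_simp
    have e2 : Q / (2 * p) = κ * Q / (2 * p) + (1 - κ) * Q / (2 * p) := by
      ring
    rw [e1] at h3
    linarith
  have hG : ∑ i, lam i * (∑ k, s i k - τ i) =
      ∑ i, lam i * ∑ k, s i k - (∑ i, lam i * τ i / 2 + ∑ i, lam i * τ i / 2) := by
    rw [← Finset.sum_add_distrib, ← Finset.sum_sub_distrib]
    apply Finset.sum_congr rfl
    intro i _
    ring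
  rw [hG] at hB
  linarith

end Pool.Agent.H195.MV
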