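import Mathlib
import Pool.Graph.R_seed8.Helper772.MV.CertT
import Pool.Agent.H195.MV.UpperU

open MeasureTheory Metric Set
open scoped ENNReal Real

namespace Pool.Agent.H195.MV

open MeanVal

/-- block functional of a tail sequence `B` -/
noncomputable def Sf (p : ℝ) (B μ : ℕ → ℝ) (e : Finset ℕ) : ℝ :=
  ((e.card : ℝ) - 1 / 2) * (∑ i ∈ e, (B i ^ 2 - B (i + 1) ^ 2)) + (∑ i ∈ e, μ i) -
    2 * p * (∑ i ∈ e, (B i - B (i + 1))) ^ 2

theorem Sf_insert (p : ℝ) (B μ : ℕ → ℝ) (e : Finset ℕ) (a : ℕ) (ha : a ∉ e) :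
    Sf p B μ (insert a e) = Sf p B μ e +
      ((B a ^ 2 - B (a + 1) ^ 2) / 2 + μ a - 2 * p * (B a - B (a + 1)) ^ 2) +
      ∑ k ∈ e, ((B a ^ 2 - B (a + 1) ^ 2) + (B k ^ 2 - B (k + 1) ^ 2) -
        4 * p * (B a - B (a + 1)) * (B k - B (k + 1))) := by
  have h1 : ∑ k ∈ e, ((B a ^ 2 - B (a + 1) ^ 2) + (B k ^ 2 - B (k + 1) ^ 2) -
        4 * p * (B a - B (a + 1)) * (B k - B (k + 1))) =
      (e.card : ℝ) * (B a ^ 2 - B (a + 1) ^ 2) + ∑ k ∈ e, (B k ^ 2 - B (k + 1) ^ 2) -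
        4 * p * (B a - B (a + 1)) * ∑ k ∈ e, (B k - B (k + 1)) := by
    rw [Finset.mul_sum, ← nsmul_eq_mul, ← Finset.sum_const, ← Finset.sum_add_distrib,
      ← Finset.sum_sub_distrib]
  rw [h1]
  unfold Sf
  rw [Finset.card_insert_of_notMem ha, Finset.sum_insert ha, Finset.sum_insert ha,
    Finset.sum_insert ha]
  push_cast
  ring

theorem Sf_nonneg_of (p : ℝ) (B μ : ℕ → ℝ) (n a : ℕ)
    (hd : ∀ i < a, 0 ≤ (B i ^ 2 - B (i + 1) ^ 2) / 2 + μ i - 2 * p * (B i - B (i + 1)) ^ 2)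
    (hw : ∀ i < a, ∀ k < n, i < k → 0 ≤ (B i ^ 2 - B (i + 1) ^ 2) + (B k ^ 2 - B (k + 1) ^ 2) -
        4 * p * (B i - B (i + 1)) * (B k - B (k + 1)))
    (hC : ∀ e ⊆ Finset.Ico a n, 0 ≤ Sf p B μ e) :
    ∀ e ⊆ Finset.range n, 0 ≤ Sf p B μ e := by
  intro e
  induction e using Finset.strongInduction with
  | H e ih =>
  intro he
  by_cases h : ∃ i ∈ e, i < a
  · obtain ⟨i0, hi0, hi0a⟩ := h
    have hne : e.Nonempty := ⟨i0, hi0⟩
    set i := e.min' hne with hi
    have hie : i ∈ e := Finset.min'_mem e hne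
    have hia : i < a := (Finset.min'_le e i0 hi0).trans_lt hi0a
    have h1 := Sf_insert p B μ (e.erase i) i (Finset.notMem_erase i e)
    rw [Finset.insert_erase hie] at h1
    rw [h1]
    have h2 := ih (e.erase i) (Finset.erase_ssubset hie) ((Finset.erase_subset i e).trans he)
    have h3 : 0 ≤ ∑ k ∈ e.erase i, ((B i ^ 2 - B (i + 1) ^ 2) + (B k ^ 2 - B (k + 1) ^ 2) -
        4 * p * (B i - B (i + 1)) * (B k - B (k + 1))) := by
      apply Finset.sum_nonneg
      intro k hk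
      have hk' := Finset.mem_erase.1 hk
      have hik : i ≤ k := Finset.min'_le e k hk'.2
      exact hw i hia k (Finset.mem_range.1 (he hk'.2)) (lt_of_le_of_ne hik (Ne.symm hk'.1))
    have h4 := hd i hia
    linarith
  · push Not at h
    apply hC
    intro i hi
    exact Finset.mem_Ico.2 ⟨h i hi, Finset.mem_range.1 (he hi)⟩

/-- certificate from a tail sequence -/
theorem certU_of_B (n : ℕ) (p : ℝ) (hp : 0 < p) (B μ : ℕ → ℝ) (hB0 : 0 < B 0) (hBn : B n = 0)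
    (hdec : ∀ i < n, B (i + 1) ≤ B i) (hnn : ∀ i ≤ n, 0 ≤ B i) (hμ : ∀ i < n, 0 ≤ μ i)
    (hsub : ∀ e ⊆ Finset.range n, 0 ≤ Sf p B μ e) :
    CertU n p ((∑ i ∈ Finset.range n, μ i) / B 0 ^ 2)
      (fun i : Fin n => Real.sqrt (2 * p) * ((B i - B (i + 1)) / B 0)) := by
  classical
  set σ : Fin n → ℝ := fun i => Real.sqrt (2 * p) * ((B i - B (i + 1)) / B 0) with hσ
  set lam : Fin n → ℝ := fun i => (B i ^ 2 - B (i + 1) ^ 2) / B 0 ^ 2 with hlam
  set μ' : Fin n → ℝ := fun i => μ i / B 0 ^ 2 with hμ'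
  have hsum : (∑ i ∈ Finset.range n, μ i) / B 0 ^ 2 = ∑ i, μ' i := by
    rw [Finset.sum_div, hμ', Fin.sum_univ_eq_sum_range (fun i => μ i / B 0 ^ 2)]
  rw [hsum]
  have hsq : Real.sqrt (2 * p) ^ 2 = 2 * p := Real.sq_sqrt (by positivity)
  have hB0' : B 0 ≠ 0 := hB0.ne'
  refine certU_of n p hp lam μ' σ ?_ ?_ ?_ ?_ ?_
  · intro i
    have h1 := hdec i i.2
    have h2 := hnn (i + 1) (by omega)
    apply div_nonneg _ (by positivity)
    nlinarith
  · have h1 : ∑ i, lam i = ∑ i ∈ Finset.range n, (B i ^ 2 - B (i + 1) ^ 2) / B 0 ^ 2 :=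
      Fin.sum_univ_eq_sum_range (fun i => (B i ^ 2 - B (i + 1) ^ 2) / B 0 ^ 2) n
    rw [h1, ← Finset.sum_div, Finset.sum_range_sub', hBn]
    field_simp
    ring
  · intro i
    exact div_nonneg (hμ i i.2) (by positivity)
  · intro j
    apply le_of_eq
    have h1 := tail_sum n (fun i => (B i ^ 2 - B (i + 1) ^ 2) / B 0 ^ 2) j
    have h2 := tail_sum n (fun i => Real.sqrt (2 * p) * ((B i - B (i + 1)) / B 0)) j
    have h3 : ∑ i ∈ Finset.univ.filter (fun i : Fin n => j ≤ i), lam i =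
      ∑ i ∈ Finset.Ico (j:ℕ) n, (B i ^ 2 - B (i + 1) ^ 2) / B 0 ^ 2 := h1
    have h4 : ∑ i ∈ Finset.univ.filter (fun i : Fin n => j ≤ i), σ i =
      ∑ i ∈ Finset.Ico (j:ℕ) n, Real.sqrt (2 * p) * ((B i - B (i + 1)) / B 0) := h2
    rw [h3, h4, ← Finset.sum_div, ← Finset.mul_sum, ← Finset.sum_div,
      tele_Ico (fun i => B i ^ 2) j n j.2.le, tele_Ico B j n j.2.le, hBn, mul_pow, hsq]
    field_simp
    ring
  · intro e
    set e' : Finset ℕ := e.map Fin.valEmbedding with he'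
    have hcard : e'.card = e.card := Finset.card_map _
    have hmap : ∀ F : ℕ → ℝ, ∑ i ∈ e', F i = ∑ i ∈ e, F i := by
      intro F
      rw [he', Finset.sum_map]
      rfl
    have hsubr : e' ⊆ Finset.range n := by
      intro i hi
      rw [he', Finset.mem_map] at hi
      obtain ⟨a, _, rfl⟩ := hi
      exact Finset.mem_range.2 a.2
    have h1 := hsub e' hsubr
    have h2 : ∑ i ∈ e, ∑ k ∈ e, Wm lam μ' σ i k = Sf p B μ e' / B 0 ^ 2 := by
      have e1 : ∀ i k : Fin n, Wm lam μ' σ i k =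
          (lam i / 2 + lam k / 2 - σ i * σ k) + (if i = k then (μ' i - lam i / 2) else 0) := by
        intro i k
        unfold Wm
        by_cases h : i = k
        · subst h
          simp only [if_true]
          ring
        · simp only [h, if_false]
          ring
      have e2 : ∀ i ∈ e, ∑ k ∈ e, Wm lam μ' σ i k =
          (e.card : ℝ) * (lam i / 2) + (∑ k ∈ e, lam k / 2) - σ i * (∑ k ∈ e, σ k) +
          (μ' i - lam i / 2) := by
        intro i hi
        simp_rw [e1]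
        rw [Finset.sum_add_distrib, Finset.sum_sub_distrib, Finset.sum_add_distrib,
          Finset.sum_const, nsmul_eq_mul, ← Finset.mul_sum, Finset.sum_ite_eq, if_pos hi]
      rw [Finset.sum_congr rfl e2]
      rw [Finset.sum_add_distrib, Finset.sum_sub_distrib, Finset.sum_add_distrib,
        ← Finset.mul_sum, Finset.sum_const, nsmul_eq_mul, ← Finset.sum_mul,
        Finset.sum_sub_distrib, ← Finset.sum_div]
      unfold Sf
      rw [hcard, hmap, hmap, hmap]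
      have e3 : ∑ i ∈ e, lam i = (∑ i ∈ e, (B i ^ 2 - B (i + 1) ^ 2)) / B 0 ^ 2 := by
        rw [Finset.sum_div]
      have e4 : ∑ i ∈ e, μ' i = (∑ i ∈ e, μ i) / B 0 ^ 2 := by
        rw [Finset.sum_div]
      have e5 : ∑ i ∈ e, σ i = Real.sqrt (2 * p) * ((∑ i ∈ e, (B i - B (i + 1))) / B 0) := by
        rw [Finset.sum_div, Finset.mul_sum]
      rw [e3, e4, e5]
      have e6 : Real.sqrt (2 * p) * ((∑ i ∈ e, (B i - B (i + 1))) / B 0) *
          (Real.sqrt (2 * p) * ((∑ i ∈ e, (B i - B (i + 1))) / B 0)) =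
          2 * p * (∑ i ∈ e, (B i - B (i + 1))) ^ 2 / B 0 ^ 2 := by
        have e7 : Real.sqrt (2 * p) * ((∑ i ∈ e, (B i - B (i + 1))) / B 0) *
          (Real.sqrt (2 * p) * ((∑ i ∈ e, (B i - B (i + 1))) / B 0)) =
          Real.sqrt (2 * p) ^ 2 * (∑ i ∈ e, (B i - B (i + 1))) ^ 2 / B 0 ^ 2 := by
          field_simp
        rw [e7, hsq]
      rw [e6]
      ring
    rw [h2]
    exact div_nonneg h1 (by positivity)

/-- upper bound from a tail sequence -/
theorem admissible_of_B (m : ℕ) (p : ℝ) (hp : 0 < p) (B μ : ℕ → ℝ) (hB0 : 0 < B 0)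
    (hBn : B (m + 1) = 0)
    (hdec : ∀ i < m + 1, B (i + 1) ≤ B i) (hμ : ∀ i < m + 1, 0 ≤ μ i)
    (hsub : ∀ e ⊆ Finset.range (m + 1), 0 ≤ Sf p B μ e) (V : ℝ)
    (hV : (∑ i ∈ Finset.range (m + 1), μ i) = V * B 0 ^ 2) (α : ℝ) (hα : -1 / 2 + V < α) :
    Admissible m p α := by
  have hanti : ∀ i j, i ≤ j → j ≤ m + 1 → B j ≤ B i := by
    intro i j hij hj
    induction j, hij using Nat.le_induction with
    | base => exact le_rfl
    | succ j hij ih => exact (hdec j (by omega)).trans (ih (by omega))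
  have hnn : ∀ i ≤ m + 1, 0 ≤ B i := by
    intro i hi
    have := hanti i (m + 1) hi le_rfl
    rw [hBn] at this
    exact this
  have hcert := certU_of_B (m + 1) p hp B μ hB0 hBn hdec hnn hμ hsub
  have hVeq : (∑ i ∈ Finset.range (m + 1), μ i) / B 0 ^ 2 = V := by
    rw [hV]
    field_simp
  rw [hVeq] at hcert
  have hV0 : 0 ≤ V := by
    rw [← hVeq]
    apply div_nonneg _ (by positivity)
    exact Finset.sum_nonneg fun i hi => hμ i (Finset.mem_range.1 hi)
  refine admissible_of_certU m p hp _ V (max 1 (Real.sqrt (2 * p))) (le_max_left _ _) ?_ hV0 hcert α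
    hα
  intro i
  have h1 : 0 ≤ (B i - B (i + 1)) / B 0 := div_nonneg (by linarith [hdec i i.2]) hB0.le
  have h2 : (B i - B (i + 1)) / B 0 ≤ 1 := by
    rw [div_le_one hB0]
    have h3 := hanti 0 i (Nat.zero_le _) (by omega)
    have h4 := hnn (i + 1) (by omega)
    linarith
  refine ⟨mul_nonneg (Real.sqrt_nonneg _) h1, ?_⟩
  calc Real.sqrt (2 * p) * ((B i - B (i + 1)) / B 0) ≤ Real.sqrt (2 * p) * 1 :=
        mul_le_mul_of_nonneg_left h2 (Real.sqrt_nonneg _)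
    _ ≤ _ := by rw [mul_one]; exact le_max_right _ _

end Pool.Agent.H195.MV
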