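import Mathlib
import Pool.Agent.H195.MV.CertB

open MeasureTheory Metric Set
open scoped ENNReal Real

namespace Pool.Agent.H195.MV

open MeanVal

/-- sums of distinct odd numbers -/
theorem odd_sum_bounds (N : ℕ) : ∀ s ⊆ Finset.range N,
    ((s.card : ℝ)) ^ 2 ≤ ∑ r ∈ s, (2 * (r:ℝ) + 1) ∧
    ∑ r ∈ s, (2 * (r:ℝ) + 1) ≤ (s.card : ℝ) * (2 * N - s.card) ∧ s.card ≤ N := by
  induction N with
  | zero =>
    intro s hs
    have : s = ∅ := by simpa using hs
    subst this
    simp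
  | succ N ih =>
    intro s hs
    by_cases hN : N ∈ s
    · have hs' : s.erase N ⊆ Finset.range N := by
        intro r hr
        have hr' := Finset.mem_erase.1 hr
        have := Finset.mem_range.1 (hs hr'.2)
        exact Finset.mem_range.2 (by omega)
      obtain ⟨h1, h2, h3⟩ := ih _ hs'
      have hcard : s.card = (s.erase N).card + 1 := (Finset.card_erase_add_one hN).symm
      have hsum : ∑ r ∈ s, (2 * (r:ℝ) + 1) = (2 * (N:ℝ) + 1) + ∑ r ∈ s.erase N, (2 * (r:ℝ) + 1) :=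
        (Finset.add_sum_erase s _ hN).symm
      have h4 : ((s.erase N).card : ℝ) ≤ N := by exact_mod_cast h3
      rw [hsum, hcard]
      push_cast
      refine ⟨by nlinarith, by nlinarith, by omega⟩
    · have hs' : s ⊆ Finset.range N := by
        intro r hr
        have h0 := Finset.mem_range.1 (hs hr)
        rcases Nat.lt_or_ge r N with h | h
        · exact Finset.mem_range.2 h
        · exfalso
          have : r = N := by omega
          exact hN (this ▸ hr)
      obtain ⟨h1, h2, h3⟩ := ih _ hs'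
      refine ⟨h1, ?_, by omega⟩
      push_cast
      nlinarith [Nat.cast_nonneg (α := ℝ) s.card]

/-- the same for a reflected interval -/
theorem odd_sum_bounds' (m c N : ℕ) (hm : m = c + N) (e : Finset ℕ)
    (he : e ⊆ Finset.Ico (c + 1) (m + 1)) :
    ((e.card : ℝ)) ^ 2 ≤ ∑ i ∈ e, (2 * ((m:ℝ) - i) + 1) ∧
    ∑ i ∈ e, (2 * ((m:ℝ) - i) + 1) ≤ (e.card : ℝ) * (2 * N - e.card) ∧ e.card ≤ N := by
  classical
  set s : Finset ℕ := e.image (fun i => m - i) with hs
  have hinj : Set.InjOn (fun i => m - i) (e : Set ℕ) := by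
    intro a ha b hb hab
    have ha' := Finset.mem_Ico.1 (he ha)
    have hb' := Finset.mem_Ico.1 (he hb)
    simp only at hab
    omega
  have hcard : s.card = e.card := Finset.card_image_of_injOn hinj
  have hsum : ∑ r ∈ s, (2 * (r:ℝ) + 1) = ∑ i ∈ e, (2 * ((m:ℝ) - i) + 1) := by
    rw [hs, Finset.sum_image hinj]
    apply Finset.sum_congr rfl
    intro i hi
    have hi' := Finset.mem_Ico.1 (he hi)
    rw [Nat.cast_sub (by omega)]
  have hsub : s ⊆ Finset.range N := by
    intro r hr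
    obtain ⟨i, hi, rfl⟩ := Finset.mem_image.1 hr
    have hi' := Finset.mem_Ico.1 (he hi)
    exact Finset.mem_range.2 (by omega)
  have := odd_sum_bounds N s hsub
  rw [hcard, hsum] at this
  exact this

/-- cluster condition without the heavy point -/
theorem S0_nonneg (N D κ j L : ℝ) (hN : 1 ≤ N) (hD : N - 1 ≤ 2 * D) (hκ : 0 ≤ κ)
    (hj : j = 0 ∨ 1 ≤ j) (hjN : j ≤ N) (hL : j ^ 2 ≤ L) (hL' : L ≤ j * (2 * N - j)) :
    0 ≤ (j - 1 / 2 - N / 2) * L + j * (N * (D + 1 / 2 + N / 2) + κ / N) - (D + N) * j ^ 2 := by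
  have hN0 : 0 < N := by linarith
  have hκN : 0 ≤ κ / N := by positivity
  have hj0 : 0 ≤ j := by rcases hj with h | h <;> linarith
  rcases le_total 0 (j - 1 / 2 - N / 2) with h | h
  · have h1 : (j - 1 / 2 - N / 2) * j ^ 2 ≤ (j - 1 / 2 - N / 2) * L :=
      mul_le_mul_of_nonneg_left hL h
    have h2 : 0 ≤ j * ((N - j) * (D - j + 1 / 2 + N / 2) + κ / N) := by
      apply mul_nonneg hj0
      apply add_nonneg _ hκN
      apply mul_nonneg <;> linarith
    nlinarith
  · have h1 : (j - 1 / 2 - N / 2) * (j * (2 * N - j)) ≤ (j - 1 / 2 - N / 2) * L :=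
      mul_le_mul_of_nonpos_left hL' h
    have h2 : 0 ≤ j * ((N - j) * (D + j - 1 / 2 - N / 2) + κ / N) := by
      rcases hj with h0 | h0
      · rw [h0]; simp
      · apply mul_nonneg hj0
        apply add_nonneg _ hκN
        apply mul_nonneg <;> linarith
    nlinarith

/-- cluster condition with the heavy point -/
theorem S1_nonneg (N ν D κ j L : ℝ) (hN : 1 ≤ N) (hν : ν ^ 2 = N) (hν0 : 0 ≤ ν) (hDν : ν ≤ D)
    (hD : N - 1 ≤ 2 * D) (hκ' : κ ≤ 2 * N * ν * (D - ν))
    (hj0 : 0 ≤ j) (hjN : j = N ∨ j ≤ N - 1) (hL : j ^ 2 ≤ L) (hL' : L ≤ j * (2 * N - j)) :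
    0 ≤ (j + 1 / 2) * (2 * N * ν + N + L) +
      ((2 * N * ν + N) * D - N ^ 2 - N * ν - N / 2 - κ) +
      (j * (N * (D + 1 / 2 + N / 2) + κ / N) - N / 2 * L) - (D + N) * (ν + j) ^ 2 := by
  have hN0 : 0 < N := by linarith
  have hκN : κ / N ≤ 2 * ν * (D - ν) := by
    rw [div_le_iff₀ hN0]; linarith
  have hκe : κ = N * (κ / N) := by field_simp
  obtain ⟨κ', hκ'⟩ : ∃ κ', κ' = κ / N := ⟨_, rfl⟩
  rw [← hκ'] at hκN hκe ⊢
  rw [hκe]
  have hjN' : j ≤ N := by rcases hjN with h | h <;> linarith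
  rcases le_total 0 (j + 1 / 2 - N / 2) with h | h
  · have h1 : (j + 1 / 2 - N / 2) * j ^ 2 ≤ (j + 1 / 2 - N / 2) * L :=
      mul_le_mul_of_nonneg_left hL h
    have h2 : 0 ≤ (N - j) * (j * (D - j - 1 / 2 + N / 2) + 2 * ν * (D - ν) - κ') := by
      rcases hjN with h0 | h0
      · rw [h0]; simp
      · apply mul_nonneg (by linarith)
        have : 0 ≤ j * (D - j - 1 / 2 + N / 2) := mul_nonneg hj0 (by linarith)
        linarith
    have h3 : (N - j) * (j * (D - j - 1 / 2 + N / 2) + 2 * ν * (D - ν) - κ') =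
      (j + 1 / 2) * (2 * N * ν + N) + (j + 1 / 2 - N / 2) * j ^ 2 +
      ((2 * N * ν + N) * D - N ^ 2 - N * ν - N / 2 - N * κ') +
      (j * (N * (D + 1 / 2 + N / 2) + κ')) - (D + N) * (ν + j) ^ 2 := by
      linear_combination (D - N + 2 * j) * hν
    nlinarith
  · have h1 : (j + 1 / 2 - N / 2) * (j * (2 * N - j)) ≤ (j + 1 / 2 - N / 2) * L :=
      mul_le_mul_of_nonpos_left hL' h
    have h2 : 0 ≤ (N - j) * (j * (D + j + 1 / 2 - N / 2) + 2 * ν * (D - ν) - κ') := by
      apply mul_nonneg (by linarith)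
      have : 0 ≤ j * (D + j + 1 / 2 - N / 2) := mul_nonneg hj0 (by linarith)
      linarith
    have h3 : (N - j) * (j * (D + j + 1 / 2 - N / 2) + 2 * ν * (D - ν) - κ') =
      (j + 1 / 2) * (2 * N * ν + N) + (j + 1 / 2 - N / 2) * (j * (2 * N - j)) +
      ((2 * N * ν + N) * D - N ^ 2 - N * ν - N / 2 - N * κ') +
      (j * (N * (D + 1 / 2 + N / 2) + κ')) - (D + N) * (ν + j) ^ 2 := by
      linear_combination (D - N + 2 * j) * hν
    nlinarith

end Pool.Agent.H195.MV
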