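import Mathlib
import Pool.Agent.H195.MV.CertF

open MeasureTheory Metric Set
open scoped ENNReal Real

namespace Pool.Agent.H195.MV

open MeanVal

/-- tail sequence: `E` geometric steps, `k` arithmetic steps, then a cluster of `m + 1 - E - k`
points -/
noncomputable def Bf (E k m : ℕ) (G x ρi : ℝ) (i : ℕ) : ℝ :=
  if E + k < i then (m:ℝ) + 1 - i else if E ≤ i then G + ((E:ℝ) + k - i) * x
    else (G + k * x) * ρi ^ (E - i)

noncomputable def muf (E k m : ℕ) (G x ρi p N D ν κ : ℝ) (i : ℕ) : ℝ :=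
  if E + k < i then N * (D + 1 / 2 + N / 2) + κ / N - N / 2 * (2 * ((m:ℝ) - i) + 1)
  else if i = E + k then (2 * N * ν + N) * D - N ^ 2 - N * ν - N / 2 - κ
  else if E ≤ i then 2 * p * x ^ 2 - (Bf E k m G x ρi i ^ 2 - Bf E k m G x ρi (i + 1) ^ 2) / 2
  else 0

theorem Bf_hi {E k m : ℕ} {G x ρi : ℝ} {i : ℕ} (h : E + k < i) :
    Bf E k m G x ρi i = (m:ℝ) + 1 - i := by
  unfold Bf; rw [if_pos h]

theorem Bf_mid {E k m : ℕ} {G x ρi : ℝ} {i : ℕ} (h : i ≤ E + k) (h' : E ≤ i) :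
    Bf E k m G x ρi i = G + ((E:ℝ) + k - i) * x := by
  unfold Bf; rw [if_neg (by omega), if_pos h']

theorem Bf_lo {E k m : ℕ} {G x ρi : ℝ} {i : ℕ} (h : i ≤ E) :
    Bf E k m G x ρi i = (G + k * x) * ρi ^ (E - i) := by
  rcases h.eq_or_lt with h1 | h1
  · subst h1
    rw [Bf_mid (by omega) le_rfl]
    simp
  · unfold Bf; rw [if_neg (by omega), if_neg (by omega)]

theorem Bf_lo_succ {E k m : ℕ} {G x ρi : ℝ} {i : ℕ} (h : i < E) :
    Bf E k m G x ρi i = ρi * Bf E k m G x ρi (i + 1) := by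
  rw [Bf_lo h.le, Bf_lo (Nat.succ_le_of_lt h)]
  have : E - i = (E - (i + 1)) + 1 := by omega
  rw [this, pow_succ]
  ring

theorem Bf_mid_succ {E k m : ℕ} {G x ρi : ℝ} {i : ℕ} (h : i < E + k) (h' : E ≤ i) :
    Bf E k m G x ρi i = Bf E k m G x ρi (i + 1) + x := by
  rw [Bf_mid h.le h', Bf_mid (Nat.succ_le_of_lt h) (by omega)]
  push_cast
  ring

theorem Bf_c {E k m : ℕ} {G x ρi : ℝ} : Bf E k m G x ρi (E + k) = G := by
  rw [Bf_mid le_rfl (by omega)]
  push_cast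
  ring

theorem Bf_c_succ {E k m N : ℕ} {G x ρi : ℝ} (hm : m = E + k + N) :
    Bf E k m G x ρi (E + k + 1) = N := by
  rw [Bf_hi (by omega), hm]
  push_cast
  ring

/-- value of the block functional on a part of the cluster -/
theorem Sf_cluster (E k m N : ℕ) (hm : m = E + k + N) (G x ρi p D ν κ : ℝ)
    (hG : G = N + ν) (hν : ν ^ 2 = N) (hp : 2 * p = D + N)
    (e : Finset ℕ) (he : e ⊆ Finset.Ico (E + k + 1) (m + 1)) :
    let B := Bf E k m G x ρi
    let μ := muf E k m G x ρi p N D ν κ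
    let L := ∑ i ∈ e, (2 * ((m:ℝ) - i) + 1)
    (∑ i ∈ e, (B i ^ 2 - B (i + 1) ^ 2) = L) ∧ (∑ i ∈ e, (B i - B (i + 1)) = e.card) ∧
    (Sf p B μ e = ((e.card:ℝ) - 1 / 2 - (N:ℝ) / 2) * L +
      e.card * (N * (D + 1 / 2 + (N:ℝ) / 2) + κ / N) - (D + N) * (e.card:ℝ) ^ 2) ∧
    (Sf p B μ (insert (E + k) e) = ((e.card:ℝ) + 1 / 2) * (2 * N * ν + N + L) +
      ((2 * N * ν + N) * D - (N:ℝ) ^ 2 - N * ν - N / 2 - κ) +
      (e.card * (N * (D + 1 / 2 + (N:ℝ) / 2) + κ / N) - N / 2 * L) -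
      (D + N) * (ν + e.card) ^ 2) ∧
    (∑ i ∈ insert (E + k) e, (B i ^ 2 - B (i + 1) ^ 2) = 2 * N * ν + N + L) ∧
    (∑ i ∈ insert (E + k) e, (B i - B (i + 1)) = ν + e.card) := by
  intro B μ L
  have hB : ∀ i ∈ e, B i = (m:ℝ) + 1 - i ∧ B (i + 1) = (m:ℝ) - i := by
    intro i hi
    have hi' := Finset.mem_Ico.1 (he hi)
    refine ⟨Bf_hi (by omega), ?_⟩
    show Bf E k m G x ρi (i + 1) = _
    rw [Bf_hi (by omega)]
    push_cast
    ring
  have h1 : ∑ i ∈ e, (B i ^ 2 - B (i + 1) ^ 2) = L := by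
    apply Finset.sum_congr rfl
    intro i hi
    obtain ⟨h1, h2⟩ := hB i hi
    rw [h1, h2]
    ring
  have h2 : ∑ i ∈ e, (B i - B (i + 1)) = e.card := by
    rw [Finset.sum_congr rfl (g := fun _ => (1:ℝ))]
    · simp
    · intro i hi
      obtain ⟨h1, h2⟩ := hB i hi
      rw [h1, h2]
      ring
  have h3 : ∑ i ∈ e, μ i = e.card * (N * (D + 1 / 2 + (N:ℝ) / 2) + κ / N) - N / 2 * L := by
    have : ∀ i ∈ e, μ i = (N * (D + 1 / 2 + (N:ℝ) / 2) + κ / N) - (N:ℝ) / 2 * (2 * ((m:ℝ) - i) + 1) := by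
      intro i hi
      have hi' := Finset.mem_Ico.1 (he hi)
      show muf E k m G x ρi p N D ν κ i = _
      unfold muf
      rw [if_pos (by omega)]
    rw [Finset.sum_congr rfl this, Finset.sum_sub_distrib, Finset.sum_const, nsmul_eq_mul,
      ← Finset.mul_sum]
  have hc : E + k ∉ e := by
    intro h
    have := Finset.mem_Ico.1 (he h)
    omega
  have hBc : B (E + k) = G := Bf_c
  have hBc1 : B (E + k + 1) = N := Bf_c_succ hm
  have hμc : μ (E + k) = (2 * N * ν + N) * D - (N:ℝ) ^ 2 - N * ν - N / 2 - κ := by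
    show muf E k m G x ρi p N D ν κ (E + k) = _
    unfold muf
    rw [if_neg (by omega), if_pos rfl]
  have h4 : B (E + k) ^ 2 - B (E + k + 1) ^ 2 = 2 * N * ν + N := by
    rw [hBc, hBc1, hG]
    linear_combination hν
  have h5 : B (E + k) - B (E + k + 1) = ν := by
    rw [hBc, hBc1, hG]; ring
  refine ⟨h1, h2, ?_, ?_, ?_, ?_⟩
  · unfold Sf
    rw [h1, h2, h3, hp]
    ring
  · unfold Sf
    rw [Finset.card_insert_of_notMem hc, Finset.sum_insert hc, Finset.sum_insert hc,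
      Finset.sum_insert hc, h1, h2, h3, h4, h5, hμc, hp]
    push_cast
    ring
  · rw [Finset.sum_insert hc, h1, h4]
  · rw [Finset.sum_insert hc, h2, h5]

/-- nonnegativity on subsets of the cluster -/
theorem Sf_cluster_nonneg (E k m N : ℕ) (hN1 : 1 ≤ N) (hm : m = E + k + N)
    (G x ρi p D ν κ : ℝ)
    (hG : G = N + ν) (hν : ν ^ 2 = N) (hν0 : 0 ≤ ν) (hp : 2 * p = D + N) (hDν : ν ≤ D)
    (hD : (N:ℝ) - 1 ≤ 2 * D) (hκ : 0 ≤ κ) (hκ' : κ ≤ 2 * N * ν * (D - ν))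
    (e : Finset ℕ) (he : e ⊆ Finset.Ico (E + k) (m + 1)) :
    0 ≤ Sf p (Bf E k m G x ρi) (muf E k m G x ρi p N D ν κ) e := by
  have hNR : (1:ℝ) ≤ N := by exact_mod_cast hN1
  have key : ∀ e' ⊆ Finset.Ico (E + k + 1) (m + 1),
      0 ≤ Sf p (Bf E k m G x ρi) (muf E k m G x ρi p N D ν κ) e' ∧
      0 ≤ Sf p (Bf E k m G x ρi) (muf E k m G x ρi p N D ν κ) (insert (E + k) e') := by
    intro e' he'
    obtain ⟨_, _, h3, h4, _, _⟩ := Sf_cluster E k m N hm G x ρi p D ν κ hG hν hp e' he'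
    obtain ⟨b1, b2, b3⟩ := odd_sum_bounds' m (E + k) N hm e' he'
    have b3' : ((e'.card : ℕ) : ℝ) ≤ N := by exact_mod_cast b3
    rw [h3, h4]
    constructor
    · apply S0_nonneg (N:ℝ) D κ _ _ hNR hD hκ _ b3' b1 b2
      rcases Nat.eq_zero_or_pos e'.card with h | h
      · left; rw [h]; simp
      · right; exact_mod_cast h
    · apply S1_nonneg (N:ℝ) ν D κ _ _ hNR hν hν0 hDν hD hκ' (Nat.cast_nonneg _) _ b1 b2
      rcases b3.eq_or_lt with h | h
      · left; rw [h]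
      · right
        have : e'.card + 1 ≤ N := h
        have : ((e'.card : ℕ) : ℝ) + 1 ≤ N := by exact_mod_cast this
        linarith
  by_cases hc : E + k ∈ e
  · have h1 : e.erase (E + k) ⊆ Finset.Ico (E + k + 1) (m + 1) := by
      intro i hi
      have hi' := Finset.mem_erase.1 hi
      have := Finset.mem_Ico.1 (he hi'.2)
      exact Finset.mem_Ico.2 ⟨by omega, this.2⟩
    have := (key _ h1).2
    rwa [Finset.insert_erase hc] at this
  · have h1 : e ⊆ Finset.Ico (E + k + 1) (m + 1) := by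
      intro i hi
      have := Finset.mem_Ico.1 (he hi)
      refine Finset.mem_Ico.2 ⟨?_, this.2⟩
      rcases this.1.eq_or_lt with h | h
      · exact absurd (h ▸ hi) hc
      · omega
    exact (key _ h1).1

end Pool.Agent.H195.MV
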