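import Mathlib
import Pool.Agent.H195.MV.CertG

open MeasureTheory Metric Set
open scoped ENNReal Real

namespace Pool.Agent.H195.MV

open MeanVal

/-- compatibility of the cluster with the adjacent arithmetic point -/
def XOK (N : ℕ) (ν D κ x G : ℝ) : Prop :=
  ∀ (j : ℕ) (L : ℝ), j ≤ N → (j:ℝ) ^ 2 ≤ L → L ≤ j * (2 * N - j) →
    0 ≤ ((j:ℝ) - 1 / 2 - (N:ℝ) / 2) * L + j * (N * (D + 1 / 2 + (N:ℝ) / 2) + κ / N) -
      (D + N) * (j:ℝ) ^ 2 + (j * (x * (2 * G + x)) + L - 2 * D * G * j) ∧
    0 ≤ ((j:ℝ) + 1 / 2) * (2 * N * ν + N + L) +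
      ((2 * N * ν + N) * D - (N:ℝ) ^ 2 - N * ν - N / 2 - κ) +
      (j * (N * (D + 1 / 2 + (N:ℝ) / 2) + κ / N) - N / 2 * L) - (D + N) * (ν + j) ^ 2 +
      ((j + 1) * (x * (2 * G + x)) + (2 * N * ν + N + L) - 2 * D * G * (ν + j))

theorem upper_family (E k m N : ℕ) (hN1 : 1 ≤ N) (hm : m = E + k + N)
    (p ν D κ G x ρi : ℝ) (hG : G = N + ν) (hν : ν ^ 2 = N) (hν0 : 0 ≤ ν) (hp : 2 * p = D + N)
    (hx : 2 * p * x = D * G) (hρ : ρi * (4 * p - 1) = 4 * p + 1) (hp14 : 1 < 4 * p)
    (hDν : ν ≤ D) (hD : (N:ℝ) - 1 ≤ 2 * D) (hκ : 0 ≤ κ) (hκ' : κ ≤ 2 * N * ν * (D - ν))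
    (hk : 1 ≤ k → 4 * p ≤ D * (4 * p + 1 - 2 * k))
    (hE : 1 ≤ E → D * (4 * p - 1 - 2 * k) ≤ 4 * p)
    (hX : 1 ≤ k → XOK N ν D κ x G)
    (hk2 : 2 ≤ k → (p - 1) * D ≤ 2 * p ∧ 0 ≤ x * (2 * G + 3 * x) + 1 - 2 * D * G ∧
      0 ≤ x * (2 * G + 3 * x) + (2 * N * ν + N) - 2 * D * G * ν)
    (V : ℝ) (hV : (D - 1 / 2) * G ^ 2 + (2 * p * k * x ^ 2 - ((G + k * x) ^ 2 - G ^ 2) / 2) =
      V * ((G + k * x) * ρi ^ E) ^ 2) (α : ℝ) (hα : -1 / 2 + V < α) :
    Admissible m p α := by
  have hNR : (1:ℝ) ≤ N := by exact_mod_cast hN1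
  have hp0 : 0 < p := by linarith
  have hν1 : 1 ≤ ν := by nlinarith
  have hG0 : 0 < G := by rw [hG]; linarith
  have hD0 : 0 < D := by linarith
  have hx0 : 0 < x := by
    have h1 : 0 < 2 * p * x := by rw [hx]; positivity
    by_contra h
    push Not at h
    have : 2 * p * x ≤ 0 := mul_nonpos_of_nonneg_of_nonpos (by linarith) h
    linarith
  have hρ1 : (ρi - 1) * (4 * p - 1) = 2 := by linarith
  have hρgt : 1 < ρi := by
    by_contra h
    push Not at h
    nlinarith
  have hρ2 : (ρi + 1) * (4 * p - 1) = 8 * p := by linarith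
  have hkx : 0 ≤ (k:ℝ) * x := by positivity
  -- ν ≤ x
  have hνx : ν ≤ x := by
    have h1 : 2 * p * ν ≤ 2 * p * x := by
      rw [hx, hp, hG]
      nlinarith
    exact le_of_mul_le_mul_left h1 (by linarith)
  have h1x : 1 ≤ x := hν1.trans hνx
  set B := Bf E k m G x ρi with hB
  set μ := muf E k m G x ρi p N D ν κ with hμ
  have hBE : B E = G + k * x := by
    rw [hB, Bf_mid (by omega) le_rfl]
    push_cast
    ring
  -- monotonicity
  have hBpos : ∀ i ≤ m, 0 < B i := by
    intro i hi
    rcases Nat.lt_or_ge (E + k) i with h | h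
    · rw [hB, Bf_hi h]
      have : (i:ℝ) ≤ m := by exact_mod_cast hi
      linarith
    · rcases Nat.lt_or_ge i E with h' | h'
      · rw [hB, Bf_lo h'.le]
        have : 0 < ρi ^ (E - i) := pow_pos (by linarith) _
        have : 0 < G + k * x := by linarith
        positivity
      · rw [hB, Bf_mid h h']
        have : (i:ℝ) ≤ E + k := by exact_mod_cast h
        have : 0 ≤ ((E:ℝ) + k - i) * x := mul_nonneg (by linarith) hx0.le
        linarith
  have hBn : B (m + 1) = 0 := by
    rw [hB, Bf_hi (by omega)]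
    push_cast
    ring
  have hdec : ∀ i < m + 1, B (i + 1) ≤ B i := by
    intro i hi
    rcases Nat.lt_or_ge i E with h | h
    · have h1 : B i = ρi * B (i + 1) := Bf_lo_succ h
      have h2 := hBpos (i + 1) (by omega)
      rw [h1]
      nlinarith
    · rcases Nat.lt_or_ge i (E + k) with h' | h'
      · have h1 : B i = B (i + 1) + x := Bf_mid_succ h' h
        linarith
      · rcases h'.eq_or_lt with h'' | h''
        · have h1 : B i = G := by rw [← h'']; exact Bf_c
          have h2 : B (i + 1) = N := by rw [← h'']; exact Bf_c_succ hm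
          rw [h1, h2, hG]
          linarith
        · have h1 : B i = (m:ℝ) + 1 - i := Bf_hi h''
          have h2 : B (i + 1) = (m:ℝ) + 1 - ((i + 1 : ℕ) : ℝ) := Bf_hi (by omega)
          rw [h1, h2]
          push_cast
          linarith
  have hanti : ∀ i j, i ≤ j → j ≤ m + 1 → B j ≤ B i := by
    intro i j hij hj
    induction j, hij using Nat.le_induction with
    | base => exact le_rfl
    | succ j hij ih => exact (hdec j (by omega)).trans (ih (by omega))
  -- nonnegativity of `μ`
  have hμ0 : ∀ i < m + 1, 0 ≤ μ i := by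
    intro i hi
    rw [hμ]
    unfold muf
    split_ifs with h1 h2 h3
    · have h4 : (E:ℝ) + k + 1 ≤ i := by exact_mod_cast h1
      have h5 : (m:ℝ) = E + k + N := by rw [hm]; push_cast; ring
      have h6 : (N:ℝ) / 2 * (2 * ((m:ℝ) - i) + 1) ≤ (N:ℝ) / 2 * (2 * N - 1) :=
        mul_le_mul_of_nonneg_left (by linarith) (by linarith)
      have h7 : 0 ≤ κ / N := by positivity
      nlinarith
    · nlinarith [mul_nonneg (by linarith : (0:ℝ) ≤ N) (sub_nonneg.2 hDν)]
    · -- arithmetic points
      have hiE : i < E + k := by omega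
      have hk1 : 1 ≤ k := by omega
      have h4 : Bf E k m G x ρi i = Bf E k m G x ρi (i + 1) + x := Bf_mid_succ hiE h3
      have h5 : Bf E k m G x ρi (i + 1) ≤ G + ((k:ℝ) - 1) * x := by
        rw [Bf_mid (Nat.succ_le_of_lt hiE) (by omega)]
        have h6 : (E:ℝ) ≤ i := by exact_mod_cast h3
        push_cast
        nlinarith
      have h7 := hk hk1
      -- 4p(D-1) ≥ (2k-1) D
      have h8 : 0 ≤ x * (2 * p * x - (2 * (G + ((k:ℝ) - 1) * x) + x) / 2) := by
        apply mul_nonneg hx0.le
        have h9 : 0 ≤ 2 * p * (2 * (2 * p * x) - (2 * (G + ((k:ℝ) - 1) * x) + x)) := by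
          have h10 : 2 * p * (2 * (2 * p * x) - (2 * (G + ((k:ℝ) - 1) * x) + x)) =
            G * (D * (4 * p + 1 - 2 * k) - 4 * p) + (4 * p + 1 - 2 * k) * (2 * p * x - D * G) := by
            ring
          rw [h10, hx]
          have : 0 ≤ G * (D * (4 * p + 1 - 2 * k) - 4 * p) := mul_nonneg hG0.le (by linarith)
          linarith
        have h11 := nonneg_of_mul_nonneg_right h9 (by linarith : (0:ℝ) < 2 * p)
        linarith
      rw [h4]
      nlinarith
    · exact le_rfl
  -- single points
  have hdlo : ∀ i < E, (B i ^ 2 - B (i + 1) ^ 2) / 2 + μ i - 2 * p * (B i - B (i + 1)) ^ 2 = 0 := by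
    intro i hi
    have h1 : B i = ρi * B (i + 1) := Bf_lo_succ hi
    have h2 : μ i = 0 := by
      rw [hμ]
      unfold muf
      rw [if_neg (by omega), if_neg (by omega), if_neg (by omega)]
    rw [h1, h2]
    have h3 : (ρi + 1) = 4 * p * (ρi - 1) := by linarith
    linear_combination (B (i + 1) ^ 2 * (ρi - 1) / 2) * h3
  have hdmid : ∀ i, E ≤ i → i < E + k →
      (B i ^ 2 - B (i + 1) ^ 2) / 2 + μ i - 2 * p * (B i - B (i + 1)) ^ 2 = 0 := by
    intro i h h'
    have h1 : B i = B (i + 1) + x := Bf_mid_succ h' h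
    have h2 : μ i = 2 * p * x ^ 2 - (B i ^ 2 - B (i + 1) ^ 2) / 2 := by
      rw [hμ]
      unfold muf
      rw [if_neg (by omega), if_neg (by omega), if_pos h]
    rw [h2, h1]
    ring
  -- steps of later points
  have hstep : 1 ≤ E → ∀ i < E, ∀ l < m + 1, i < l → (4 * p - 1) * (B l - B (l + 1)) ≤ 2 * B (i + 1) := by
    intro hE1 i hi l hl hil
    have hBi : B E ≤ B (i + 1) := hanti (i + 1) E (by omega) (by omega)
    have h1 : (4 * p - 1) * x ≤ 2 * B E := by
      rw [hBE]
      have h2 := hE hE1
      have h3 : 2 * p * ((4 * p - 1 - 2 * k) * x) ≤ 2 * p * (2 * G) := by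
        have h4 : 2 * p * ((4 * p - 1 - 2 * k) * x) = (4 * p - 1 - 2 * k) * (2 * p * x) := by ring
        rw [h4, hx]
        have h6 : G * (D * (4 * p - 1 - 2 * k)) ≤ G * (4 * p) := mul_le_mul_of_nonneg_left h2 hG0.le
        linarith
      have h5 := le_of_mul_le_mul_left h3 (by linarith : (0:ℝ) < 2 * p)
      linarith
    have h4p : 0 < 4 * p - 1 := by linarith
    rcases Nat.lt_or_ge l E with h | h
    · have h2 : B l = ρi * B (l + 1) := Bf_lo_succ h
      have h3 : B (l + 1) ≤ B (i + 1) := hanti _ _ (by omega) (by omega)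
      rw [h2]
      have : (4 * p - 1) * (ρi * B (l + 1) - B (l + 1)) = 2 * B (l + 1) := by
        linear_combination (B (l + 1)) * hρ1
      linarith
    · rcases Nat.lt_or_ge l (E + k) with h' | h'
      · have h2 : B l = B (l + 1) + x := Bf_mid_succ h' h
        rw [h2, add_sub_cancel_left]
        linarith
      · rcases h'.eq_or_lt with h'' | h''
        · have h2 : B l = G := by rw [← h'']; exact Bf_c
          have h3 : B (l + 1) = N := by rw [← h'']; exact Bf_c_succ hm
          rw [h2, h3, hG, add_sub_cancel_left]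
          nlinarith
        · have h2 : B l = (m:ℝ) + 1 - l := Bf_hi h''
          have h3 : B (l + 1) = (m:ℝ) + 1 - ((l + 1 : ℕ) : ℝ) := Bf_hi (by omega)
          rw [h2, h3]
          push_cast
          nlinarith
  have hwlo : ∀ i < E, ∀ l < m + 1, i < l → 0 ≤ (B i ^ 2 - B (i + 1) ^ 2) +
      (B l ^ 2 - B (l + 1) ^ 2) - 4 * p * (B i - B (i + 1)) * (B l - B (l + 1)) := by
    intro i hi l hl hil
    have h1 := hstep (by omega) i hi l hl hil
    have h2 : B i = ρi * B (i + 1) := Bf_lo_succ hi
    have h3 := hdec l hl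
    have h4 : 0 ≤ B (l + 1) := by
      rcases Nat.lt_or_ge (l + 1) (m + 1) with h | h
      · exact (hBpos _ (by omega)).le
      · have : l + 1 = m + 1 := by omega
        rw [this, hBn]
    have h5 : 0 ≤ B l ^ 2 - B (l + 1) ^ 2 := by nlinarith
    have h6 := (hBpos (i + 1) (by omega)).le
    have h7 : 0 ≤ (B i ^ 2 - B (i + 1) ^ 2) - 4 * p * (B i - B (i + 1)) * (B l - B (l + 1)) := by
      have h8 : (B i ^ 2 - B (i + 1) ^ 2) - 4 * p * (B i - B (i + 1)) * (B l - B (l + 1)) =
          (ρi - 1) * B (i + 1) * ((ρi + 1) * B (i + 1) - 4 * p * (B l - B (l + 1))) := by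
        rw [h2]; ring
      rw [h8]
      apply mul_nonneg (mul_nonneg (by linarith) h6)
      have h9 : 0 ≤ (4 * p - 1) * ((ρi + 1) * B (i + 1) - 4 * p * (B l - B (l + 1))) := by
        have h10 : (4 * p - 1) * ((ρi + 1) * B (i + 1) - 4 * p * (B l - B (l + 1))) =
          4 * p * (2 * B (i + 1) - (4 * p - 1) * (B l - B (l + 1))) := by
          linear_combination B (i + 1) * hρ2
        rw [h10]
        apply mul_nonneg <;> linarith
      exact nonneg_of_mul_nonneg_right h9 (by linarith)
    linarith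
  have hwmid : ∀ i, E ≤ i → i + 1 < E + k → ∀ l < m + 1, i < l → 0 ≤ (B i ^ 2 - B (i + 1) ^ 2) +
      (B l ^ 2 - B (l + 1) ^ 2) - 4 * p * (B i - B (i + 1)) * (B l - B (l + 1)) := by
    intro i h h' l hl hil
    obtain ⟨q1, q2, q3⟩ := hk2 (by omega)
    have h1 : B i = B (i + 1) + x := Bf_mid_succ (by omega) h
    have h2 : G + x ≤ B (i + 1) := by
      have h3 : B (E + k - 1) ≤ B (i + 1) := hanti _ _ (by omega) (by omega)
      have h4 : B (E + k - 1) = B (E + k - 1 + 1) + x := Bf_mid_succ (by omega) (by omega)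
      rw [show E + k - 1 + 1 = E + k by omega] at h4
      have h5 : B (E + k) = G := Bf_c
      linarith
    have h6 : x * (2 * G + 3 * x) ≤ B i ^ 2 - B (i + 1) ^ 2 := by
      have e1 : B i ^ 2 - B (i + 1) ^ 2 = x * (2 * B (i + 1) + x) := by rw [h1]; ring
      rw [e1]
      exact mul_le_mul_of_nonneg_left (by linarith) hx0.le
    have h7 : 4 * p * (B i - B (i + 1)) * (B l - B (l + 1)) = 2 * D * G * (B l - B (l + 1)) := by
      rw [h1, add_sub_cancel_left]
      linear_combination 2 * (B l - B (l + 1)) * hx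
    rw [h7]
    rcases Nat.lt_or_ge l (E + k) with h8 | h8
    · have h9 : B l = B (l + 1) + x := Bf_mid_succ h8 (by omega)
      have h10 : G ≤ B (l + 1) := by
        have h3 : B (E + k) ≤ B (l + 1) := hanti _ _ (by omega) (by omega)
        have h5 : B (E + k) = G := Bf_c
        linarith
      have h11 : x * (2 * G + x) ≤ B l ^ 2 - B (l + 1) ^ 2 := by
        have e1 : B l ^ 2 - B (l + 1) ^ 2 = x * (2 * B (l + 1) + x) := by rw [h9]; ring
        rw [e1]
        exact mul_le_mul_of_nonneg_left (by linarith) hx0.le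
      have h12 : B l - B (l + 1) = x := by linarith
      rw [h12]
      -- 4 x (G + x) ≥ 2 D G x
      have h13 : D * G ≤ 2 * G + 2 * x := by
        have h14 : 2 * p * (D * G) ≤ 2 * p * (2 * G + 2 * x) := by
          have h15 : 2 * p * (2 * G + 2 * x) = 4 * p * G + 2 * (2 * p * x) := by ring
          rw [h15, hx]
          have h16 : G * ((p - 1) * D) ≤ G * (2 * p) := mul_le_mul_of_nonneg_left q1 hG0.le
          linarith
        exact le_of_mul_le_mul_left h14 (by linarith)
      have h16 : 2 * x * (D * G) ≤ 2 * x * (2 * G + 2 * x) :=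
        mul_le_mul_of_nonneg_left h13 (by linarith)
      have h17 : 2 * D * G * x = 2 * x * (D * G) := by ring
      have h18 : 2 * x * (2 * G + 2 * x) = x * (2 * G + 3 * x) + x * (2 * G + x) := by ring
      rw [h17]
      linarith
    · rcases h8.eq_or_lt with h9 | h9
      · have h10 : B l = G := by rw [← h9]; exact Bf_c
        have h11 : B (l + 1) = N := by rw [← h9]; exact Bf_c_succ hm
        have h12 : B l ^ 2 - B (l + 1) ^ 2 = 2 * N * ν + N := by
          rw [h10, h11, hG]
          linear_combination hν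
        have h13 : B l - B (l + 1) = ν := by rw [h10, h11, hG]; ring
        rw [h12, h13]
        linarith
      · have h10 : B l = (m:ℝ) + 1 - l := Bf_hi h9
        have h11 : B (l + 1) = (m:ℝ) + 1 - ((l + 1 : ℕ) : ℝ) := Bf_hi (by omega)
        push_cast at h11
        have h12 : B l - B (l + 1) = 1 := by rw [h10, h11]; ring
        have h13 : 1 ≤ B l ^ 2 - B (l + 1) ^ 2 := by
          have h14 : (l:ℝ) ≤ m := by exact_mod_cast (by omega : l ≤ m)
          have h15 : B l ^ 2 - B (l + 1) ^ 2 = 2 * ((m:ℝ) - l) + 1 := by rw [h10, h11]; ring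
          rw [h15]
          linarith
        rw [h12]
        linarith
  -- the total
  have hsum : ∑ i ∈ Finset.range (m + 1), μ i = V * B 0 ^ 2 := by
    have hB0 : B 0 = (G + k * x) * ρi ^ E := by
      rw [hB, Bf_lo (Nat.zero_le _), Nat.sub_zero]
    rw [hB0, ← hV]
    have hsplit : Finset.range (m + 1) =
        (Finset.range E) ∪ ((Finset.Ico E (E + k)) ∪ ((Finset.Ico (E + k) (m + 1)))) := by
      ext i
      simp only [Finset.mem_range, Finset.mem_union, Finset.mem_Ico]
      omega
    have hd1 : Disjoint (Finset.range E) ((Finset.Ico E (E + k)) ∪ ((Finset.Ico (E + k) (m + 1)))) := by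
      rw [Finset.disjoint_left]
      intro i hi hi'
      simp only [Finset.mem_range, Finset.mem_union, Finset.mem_Ico] at hi hi'
      omega
    have hd2 : Disjoint (Finset.Ico E (E + k)) (Finset.Ico (E + k) (m + 1)) := by
      rw [Finset.disjoint_left]
      intro i hi hi'
      simp only [Finset.mem_Ico] at hi hi'
      omega
    rw [hsplit, Finset.sum_union hd1, Finset.sum_union hd2]
    have e1 : ∑ i ∈ Finset.range E, μ i = 0 := by
      apply Finset.sum_eq_zero
      intro i hi
      have := Finset.mem_range.1 hi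
      rw [hμ]
      unfold muf
      rw [if_neg (by omega), if_neg (by omega), if_neg (by omega)]
    have e2 : ∑ i ∈ Finset.Ico E (E + k), μ i =
        2 * p * k * x ^ 2 - ((G + k * x) ^ 2 - G ^ 2) / 2 := by
      have h1 : ∀ i ∈ Finset.Ico E (E + k), μ i =
          2 * p * x ^ 2 - (B i ^ 2 - B (i + 1) ^ 2) / 2 := by
        intro i hi
        have := Finset.mem_Ico.1 hi
        rw [hμ]
        unfold muf
        rw [if_neg (by omega), if_neg (by omega), if_pos this.1]
      rw [Finset.sum_congr rfl h1, Finset.sum_sub_distrib, Finset.sum_const, Nat.card_Ico,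
        ← Finset.sum_div, tele_Ico (fun i => B i ^ 2) E (E + k) (by omega), hBE]
      have h5 : B (E + k) = G := Bf_c
      rw [h5, nsmul_eq_mul, Nat.add_sub_cancel_left]
      ring
    have e3 : ∑ i ∈ Finset.Ico (E + k) (m + 1), μ i = (D - 1 / 2) * G ^ 2 := by
      rw [Finset.sum_eq_sum_Ico_succ_bot (by omega)]
      have h1 : μ (E + k) = (2 * N * ν + N) * D - (N:ℝ) ^ 2 - N * ν - N / 2 - κ := by
        rw [hμ]
        unfold muf
        rw [if_neg (by omega), if_pos rfl]
      have h2 : ∀ i ∈ Finset.Ico (E + k + 1) (m + 1), μ i =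
          (N * (D + 1 / 2 + (N:ℝ) / 2) + κ / N) - (N:ℝ) / 2 * (B i ^ 2 - B (i + 1) ^ 2) := by
        intro i hi
        have hi' := Finset.mem_Ico.1 hi
        have h3 : B i = (m:ℝ) + 1 - i := Bf_hi (by omega)
        have h4 : B (i + 1) = (m:ℝ) + 1 - ((i + 1 : ℕ) : ℝ) := Bf_hi (by omega)
        rw [h3, h4, hμ]
        unfold muf
        rw [if_pos (by omega)]
        push_cast
        ring
      rw [h1, Finset.sum_congr rfl h2, Finset.sum_sub_distrib, Finset.sum_const, Nat.card_Ico,
        ← Finset.mul_sum, tele_Ico (fun i => B i ^ 2) (E + k + 1) (m + 1) (by omega), hBn,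
        nsmul_eq_mul]
      have h5 : B (E + k + 1) = N := Bf_c_succ hm
      have h6 : m + 1 - (E + k + 1) = N := by omega
      have h7 : (N:ℝ) ≠ 0 := by linarith
      rw [h5, h6, hG]
      field_simp
      linear_combination (1 - 2 * D) * hν
    rw [e1, e2, e3]
    ring
  -- conclusion
  refine admissible_of_B m p hp0 B μ (hBpos 0 (Nat.zero_le _)) hBn hdec hμ0 ?_ V hsum α hα
  have hclu := Sf_cluster_nonneg E k m N hN1 hm G x ρi p D ν κ hG hν hν0 hp hDν hD hκ hκ'
  rcases Nat.eq_zero_or_pos k with hk0 | hk1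
  · apply Sf_nonneg_of p B μ (m + 1) E
    · intro i hi; exact (hdlo i hi).ge
    · exact hwlo
    · intro e he
      apply hclu e
      intro i hi
      have := Finset.mem_Ico.1 (he hi)
      exact Finset.mem_Ico.2 ⟨by omega, this.2⟩
  · apply Sf_nonneg_of p B μ (m + 1) (E + k - 1)
    · intro i hi
      rcases Nat.lt_or_ge i E with h | h
      · exact (hdlo i h).ge
      · exact (hdmid i h (by omega)).ge
    · intro i hi l hl hil
      rcases Nat.lt_or_ge i E with h | h
      · exact hwlo i h l hl hil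
      · exact hwmid i h (by omega) l hl hil
    · intro e he
      by_cases ha : E + k - 1 ∈ e
      · set e' := e.erase (E + k - 1) with he'
        have he's : e' ⊆ Finset.Ico (E + k) (m + 1) := by
          intro i hi
          have hi' := Finset.mem_erase.1 hi
          have := Finset.mem_Ico.1 (he hi'.2)
          exact Finset.mem_Ico.2 ⟨by omega, this.2⟩
        have h1 := Sf_insert p B μ e' (E + k - 1) (Finset.notMem_erase _ _)
        rw [he', Finset.insert_erase ha, ← he'] at h1
        have h2 := hdmid (E + k - 1) (by omega) (by omega)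
        have h3 : B (E + k - 1) = B (E + k - 1 + 1) + x := Bf_mid_succ (by omega) (by omega)
        have h4 : B (E + k - 1 + 1) = G := by
          rw [show E + k - 1 + 1 = E + k by omega]; exact Bf_c
        rw [h2, add_zero] at h1
        have h5 : ∑ l ∈ e', ((B (E + k - 1) ^ 2 - B (E + k - 1 + 1) ^ 2) + (B l ^ 2 - B (l + 1) ^ 2) -
            4 * p * (B (E + k - 1) - B (E + k - 1 + 1)) * (B l - B (l + 1))) =
            (e'.card : ℝ) * (x * (2 * G + x)) + ∑ l ∈ e', (B l ^ 2 - B (l + 1) ^ 2) -
              2 * D * G * ∑ l ∈ e', (B l - B (l + 1)) := by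
          rw [Finset.mul_sum, ← nsmul_eq_mul, ← Finset.sum_const, ← Finset.sum_add_distrib,
            ← Finset.sum_sub_distrib]
          apply Finset.sum_congr rfl
          intro l _
          rw [h3, h4]
          linear_combination (-2 * (B l - B (l + 1))) * hx
        rw [h1, h5]
        -- split off the heavy point
        by_cases hc : E + k ∈ e'
        · set e'' := e'.erase (E + k) with he''
          have hsub : e'' ⊆ Finset.Ico (E + k + 1) (m + 1) := by
            intro i hi
            have hi' := Finset.mem_erase.1 hi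
            have := Finset.mem_Ico.1 (he's hi'.2)
            exact Finset.mem_Ico.2 ⟨by omega, this.2⟩
          obtain ⟨_, _, _, c4, c5, c6⟩ := Sf_cluster E k m N hm G x ρi p D ν κ hG hν hp e'' hsub
          obtain ⟨b1, b2, b3⟩ := odd_sum_bounds' m (E + k) N hm e'' hsub
          have hins : insert (E + k) e'' = e' := Finset.insert_erase hc
          rw [hins] at c4 c5 c6
          have hcard : e'.card = e''.card + 1 := by
            rw [← hins, Finset.card_insert_of_notMem (Finset.notMem_erase _ _)]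
          have h6 := (hX hk1 e''.card _ b3 b1 b2).2
          rw [c4, c5, c6, hcard]
          push_cast
          exact h6
        · have hsub : e' ⊆ Finset.Ico (E + k + 1) (m + 1) := by
            intro i hi
            have := Finset.mem_Ico.1 (he's hi)
            refine Finset.mem_Ico.2 ⟨?_, this.2⟩
            rcases this.1.eq_or_lt with h | h
            · exact absurd (h ▸ hi) hc
            · omega
          obtain ⟨c1, c2, c3, _, _, _⟩ := Sf_cluster E k m N hm G x ρi p D ν κ hG hν hp e' hsub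
          obtain ⟨b1, b2, b3⟩ := odd_sum_bounds' m (E + k) N hm e' hsub
          have h6 := (hX hk1 e'.card _ b3 b1 b2).1
          rw [c1, c2, c3]
          exact h6
      · apply hclu e
        intro i hi
        have := Finset.mem_Ico.1 (he hi)
        refine Finset.mem_Ico.2 ⟨?_, this.2⟩
        have hne : i ≠ E + k - 1 := fun h => ha (h ▸ hi)
        omega

end Pool.Agent.H195.MV
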