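import Mathlib

namespace Pool.Agent.H195.MV

theorem P2_1 (ν D x G p : ℝ) (hG : G = 1 + ν) (hν : ν ^ 2 = 1) (hν0 : 0 ≤ ν)
    (hD1 : ν ≤ D) (hD2 : (D - 1) ^ 2 ≤ 2) (hx : (D + 1) * x = D * G) (hp : 2 * p = D + 1) :
    (p - 1) * D ≤ 2 * p ∧ 0 ≤ x * (2 * G + 3 * x) + 1 - 2 * D * G ∧
      0 ≤ x * (2 * G + 3 * x) + (2 * 1 * ν + 1) - 2 * D * G * ν := by
  have hνe : ν = 1 := by nlinarith
  subst hνe
  have hlo : 0 ≤ D - 1 := by linarith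
  have hhi : 0 ≤ (24143 / 10000) - D := by
    by_contra hcon
    push Not at hcon
    nlinarith
  subst hG
  have hDp : 0 < D + 1 := by linarith
  have hDp2 : 0 < (D + 1) ^ 2 := by positivity
  have hlm : x * (2 * (1 + 1) + 3 * x) * (D + 1) ^ 2 = 1 * (2 + 2 * 1) * D * (5 * D + 2) := by
    linear_combination (2 * (1 + 1) * (D + 1) + 3 * (D + 1) * x + 3 * D * (1 + 1)) * hx
  have q0 : 0 ≤ (D - 1) ^ 0 * ((24143 / 10000) - D) ^ 3 :=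
    mul_nonneg (pow_nonneg hlo _) (pow_nonneg hhi _)
  have q1 : 0 ≤ (D - 1) ^ 1 * ((24143 / 10000) - D) ^ 2 :=
    mul_nonneg (pow_nonneg hlo _) (pow_nonneg hhi _)
  have q2 : 0 ≤ (D - 1) ^ 2 * ((24143 / 10000) - D) ^ 1 :=
    mul_nonneg (pow_nonneg hlo _) (pow_nonneg hhi _)
  have q3 : 0 ≤ (D - 1) ^ 3 * ((24143 / 10000) - D) ^ 0 :=
    mul_nonneg (pow_nonneg hlo _) (pow_nonneg hhi _)
  refine ⟨?_, ?_, ?_⟩
  · nlinarith
  · have hP : 0 ≤ 1 + 6 * D ^ 1 + 13 * D ^ 2 + (-4) * D ^ 3 := by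
      linarith [q0, q1, q2, q3]
    refine nonneg_of_mul_nonneg_left (b := (D + 1) ^ 2) (le_of_le_of_eq hP ?_) hDp2
    linear_combination -hlm
  · have hP : 0 ≤ 3 + 10 * D ^ 1 + 15 * D ^ 2 + (-4) * D ^ 3 := by
      linarith [q0, q1, q2, q3]
    refine nonneg_of_mul_nonneg_left (b := (D + 1) ^ 2) (le_of_le_of_eq hP ?_) hDp2
    linear_combination -hlm

theorem P2_2 (ν D x G p : ℝ) (hG : G = 2 + ν) (hν : ν ^ 2 = 2) (hν0 : 0 ≤ ν)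
    (hD1 : ν ≤ D) (hD2 : (D - 1) ^ 2 ≤ 3) (hx : (D + 2) * x = D * G) (hp : 2 * p = D + 2) :
    (p - 1) * D ≤ 2 * p ∧ 0 ≤ x * (2 * G + 3 * x) + 1 - 2 * D * G ∧
      0 ≤ x * (2 * G + 3 * x) + (2 * 2 * ν + 2) - 2 * D * G * ν := by
  have hν1 : (7071 / 5000) ≤ ν := by nlinarith
  have hν2 : ν ≤ (14143 / 10000) := by nlinarith
  have hlo : 0 ≤ D - (707 / 500) := by linarith
  have hhi : 0 ≤ (27321 / 10000) - D := by
    by_contra hcon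
    push Not at hcon
    nlinarith
  subst hG
  have hDp : 0 < D + 2 := by linarith
  have hDp2 : 0 < (D + 2) ^ 2 := by positivity
  have hlm : x * (2 * (2 + ν) + 3 * x) * (D + 2) ^ 2 = 2 * (3 + 2 * ν) * D * (5 * D + 4) := by
    linear_combination (2 * (2 + ν) * (D + 2) + 3 * (D + 2) * x + 3 * D * (2 + ν)) * hx +
      D * (5 * D + 4) * hν
  have q00 : 0 ≤ (D - (707 / 500)) ^ 0 * ((27321 / 10000) - D) ^ 3 * (ν - (7071 / 5000)) :=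
    mul_nonneg (mul_nonneg (pow_nonneg hlo _) (pow_nonneg hhi _)) (sub_nonneg.2 hν1)
  have q01 : 0 ≤ (D - (707 / 500)) ^ 0 * ((27321 / 10000) - D) ^ 3 * ((14143 / 10000) - ν) :=
    mul_nonneg (mul_nonneg (pow_nonneg hlo _) (pow_nonneg hhi _)) (sub_nonneg.2 hν2)
  have q10 : 0 ≤ (D - (707 / 500)) ^ 1 * ((27321 / 10000) - D) ^ 2 * (ν - (7071 / 5000)) :=
    mul_nonneg (mul_nonneg (pow_nonneg hlo _) (pow_nonneg hhi _)) (sub_nonneg.2 hν1)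
  have q11 : 0 ≤ (D - (707 / 500)) ^ 1 * ((27321 / 10000) - D) ^ 2 * ((14143 / 10000) - ν) :=
    mul_nonneg (mul_nonneg (pow_nonneg hlo _) (pow_nonneg hhi _)) (sub_nonneg.2 hν2)
  have q20 : 0 ≤ (D - (707 / 500)) ^ 2 * ((27321 / 10000) - D) ^ 1 * (ν - (7071 / 5000)) :=
    mul_nonneg (mul_nonneg (pow_nonneg hlo _) (pow_nonneg hhi _)) (sub_nonneg.2 hν1)
  have q21 : 0 ≤ (D - (707 / 500)) ^ 2 * ((27321 / 10000) - D) ^ 1 * ((14143 / 10000) - ν) :=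
    mul_nonneg (mul_nonneg (pow_nonneg hlo _) (pow_nonneg hhi _)) (sub_nonneg.2 hν2)
  have q30 : 0 ≤ (D - (707 / 500)) ^ 3 * ((27321 / 10000) - D) ^ 0 * (ν - (7071 / 5000)) :=
    mul_nonneg (mul_nonneg (pow_nonneg hlo _) (pow_nonneg hhi _)) (sub_nonneg.2 hν1)
  have q31 : 0 ≤ (D - (707 / 500)) ^ 3 * ((27321 / 10000) - D) ^ 0 * ((14143 / 10000) - ν) :=
    mul_nonneg (mul_nonneg (pow_nonneg hlo _) (pow_nonneg hhi _)) (sub_nonneg.2 hν2)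
  refine ⟨?_, ?_, ?_⟩
  · nlinarith
  · have hP : 0 ≤ 4 + 12 * D ^ 1 + 8 * D ^ 1 * ν + 15 * D ^ 2 + 12 * D ^ 2 * ν + (-4) * D ^ 3 + (-2) * D ^ 3 * ν := by
      linarith [q00, q01, q10, q11, q20, q21, q30, q31]
    refine nonneg_of_mul_nonneg_left (b := (D + 2) ^ 2) (le_of_le_of_eq hP ?_) hDp2
    linear_combination -hlm
  · have hP : 0 ≤ 8 + 16 * ν + 16 * D ^ 1 + 16 * D ^ 1 * ν + 16 * D ^ 2 + 8 * D ^ 2 * ν + (-4) * D ^ 3 + (-4) * D ^ 3 * ν := by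
      linarith [q00, q01, q10, q11, q20, q21, q30, q31]
    refine nonneg_of_mul_nonneg_left (b := (D + 2) ^ 2) (le_of_le_of_eq hP ?_) hDp2
    linear_combination (2 * D * (D + 2) ^ 2) * hν - hlm

theorem P2_3 (ν D x G p : ℝ) (hG : G = 3 + ν) (hν : ν ^ 2 = 3) (hν0 : 0 ≤ ν)
    (hD1 : ν ≤ D) (hD2 : (D - 1) ^ 2 ≤ 4) (hx : (D + 3) * x = D * G) (hp : 2 * p = D + 3) :
    (p - 1) * D ≤ 2 * p ∧ 0 ≤ x * (2 * G + 3 * x) + 1 - 2 * D * G ∧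
      0 ≤ x * (2 * G + 3 * x) + (2 * 3 * ν + 3) - 2 * D * G * ν := by
  have hν1 : (433 / 250) ≤ ν := by nlinarith
  have hν2 : ν ≤ (17321 / 10000) := by nlinarith
  have hlo : 0 ≤ D - (433 / 250) := by linarith
  have hhi : 0 ≤ 3 - D := by
    by_contra hcon
    push Not at hcon
    nlinarith
  subst hG
  have hDp : 0 < D + 3 := by linarith
  have hDp2 : 0 < (D + 3) ^ 2 := by positivity
  have hlm : x * (2 * (3 + ν) + 3 * x) * (D + 3) ^ 2 = 3 * (4 + 2 * ν) * D * (5 * D + 6) := by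
    linear_combination (2 * (3 + ν) * (D + 3) + 3 * (D + 3) * x + 3 * D * (3 + ν)) * hx +
      D * (5 * D + 6) * hν
  have q00 : 0 ≤ (D - (433 / 250)) ^ 0 * (3 - D) ^ 3 * (ν - (433 / 250)) :=
    mul_nonneg (mul_nonneg (pow_nonneg hlo _) (pow_nonneg hhi _)) (sub_nonneg.2 hν1)
  have q01 : 0 ≤ (D - (433 / 250)) ^ 0 * (3 - D) ^ 3 * ((17321 / 10000) - ν) :=
    mul_nonneg (mul_nonneg (pow_nonneg hlo _) (pow_nonneg hhi _)) (sub_nonneg.2 hν2)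
  have q10 : 0 ≤ (D - (433 / 250)) ^ 1 * (3 - D) ^ 2 * (ν - (433 / 250)) :=
    mul_nonneg (mul_nonneg (pow_nonneg hlo _) (pow_nonneg hhi _)) (sub_nonneg.2 hν1)
  have q11 : 0 ≤ (D - (433 / 250)) ^ 1 * (3 - D) ^ 2 * ((17321 / 10000) - ν) :=
    mul_nonneg (mul_nonneg (pow_nonneg hlo _) (pow_nonneg hhi _)) (sub_nonneg.2 hν2)
  have q20 : 0 ≤ (D - (433 / 250)) ^ 2 * (3 - D) ^ 1 * (ν - (433 / 250)) :=
    mul_nonneg (mul_nonneg (pow_nonneg hlo _) (pow_nonneg hhi _)) (sub_nonneg.2 hν1)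
  have q21 : 0 ≤ (D - (433 / 250)) ^ 2 * (3 - D) ^ 1 * ((17321 / 10000) - ν) :=
    mul_nonneg (mul_nonneg (pow_nonneg hlo _) (pow_nonneg hhi _)) (sub_nonneg.2 hν2)
  have q30 : 0 ≤ (D - (433 / 250)) ^ 3 * (3 - D) ^ 0 * (ν - (433 / 250)) :=
    mul_nonneg (mul_nonneg (pow_nonneg hlo _) (pow_nonneg hhi _)) (sub_nonneg.2 hν1)
  have q31 : 0 ≤ (D - (433 / 250)) ^ 3 * (3 - D) ^ 0 * ((17321 / 10000) - ν) :=
    mul_nonneg (mul_nonneg (pow_nonneg hlo _) (pow_nonneg hhi _)) (sub_nonneg.2 hν2)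
  refine ⟨?_, ?_, ?_⟩
  · nlinarith
  · have hP : 0 ≤ 9 + 24 * D ^ 1 + 18 * D ^ 1 * ν + 25 * D ^ 2 + 18 * D ^ 2 * ν + (-6) * D ^ 3 + (-2) * D ^ 3 * ν := by
      linarith [q00, q01, q10, q11, q20, q21, q30, q31]
    refine nonneg_of_mul_nonneg_left (b := (D + 3) ^ 2) (le_of_le_of_eq hP ?_) hDp2
    linear_combination -hlm
  · have hP : 0 ≤ 27 + 54 * ν + 36 * D ^ 1 + 18 * D ^ 1 * ν + 27 * D ^ 2 + (-6) * D ^ 3 + (-6) * D ^ 3 * ν := by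
      linarith [q00, q01, q10, q11, q20, q21, q30, q31]
    refine nonneg_of_mul_nonneg_left (b := (D + 3) ^ 2) (le_of_le_of_eq hP ?_) hDp2
    linear_combination (2 * D * (D + 3) ^ 2) * hν - hlm

theorem P2_4 (ν D x G p : ℝ) (hG : G = 4 + ν) (hν : ν ^ 2 = 4) (hν0 : 0 ≤ ν)
    (hD1 : ν ≤ D) (hD2 : D ^ 2 ≤ 8) (hx : (D + 4) * x = D * G) (hp : 2 * p = D + 4) :
    (p - 1) * D ≤ 2 * p ∧ 0 ≤ x * (2 * G + 3 * x) + 1 - 2 * D * G ∧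
      0 ≤ x * (2 * G + 3 * x) + (2 * 4 * ν + 4) - 2 * D * G * ν := by
  have hνe : ν = 2 := by nlinarith
  subst hνe
  have hlo : 0 ≤ D - 2 := by linarith
  have hhi : 0 ≤ (5657 / 2000) - D := by
    by_contra hcon
    push Not at hcon
    nlinarith
  subst hG
  have hDp : 0 < D + 4 := by linarith
  have hDp2 : 0 < (D + 4) ^ 2 := by positivity
  have hlm : x * (2 * (4 + 2) + 3 * x) * (D + 4) ^ 2 = 4 * (5 + 2 * 2) * D * (5 * D + 8) := by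
    linear_combination (2 * (4 + 2) * (D + 4) + 3 * (D + 4) * x + 3 * D * (4 + 2)) * hx
  have q0 : 0 ≤ (D - 2) ^ 0 * ((5657 / 2000) - D) ^ 3 :=
    mul_nonneg (pow_nonneg hlo _) (pow_nonneg hhi _)
  have q1 : 0 ≤ (D - 2) ^ 1 * ((5657 / 2000) - D) ^ 2 :=
    mul_nonneg (pow_nonneg hlo _) (pow_nonneg hhi _)
  have q2 : 0 ≤ (D - 2) ^ 2 * ((5657 / 2000) - D) ^ 1 :=
    mul_nonneg (pow_nonneg hlo _) (pow_nonneg hhi _)
  have q3 : 0 ≤ (D - 2) ^ 3 * ((5657 / 2000) - D) ^ 0 :=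
    mul_nonneg (pow_nonneg hlo _) (pow_nonneg hhi _)
  refine ⟨?_, ?_, ?_⟩
  · nlinarith
  · have hP : 0 ≤ 16 + 104 * D ^ 1 + 85 * D ^ 2 + (-12) * D ^ 3 := by
      linarith [q0, q1, q2, q3]
    refine nonneg_of_mul_nonneg_left (b := (D + 4) ^ 2) (le_of_le_of_eq hP ?_) hDp2
    linear_combination -hlm
  · have hP : 0 ≤ 320 + 64 * D ^ 1 + 8 * D ^ 2 + (-24) * D ^ 3 := by
      linarith [q0, q1, q2, q3]
    refine nonneg_of_mul_nonneg_left (b := (D + 4) ^ 2) (le_of_le_of_eq hP ?_) hDp2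
    linear_combination -hlm

end Pool.Agent.H195.MV
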