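import Mathlib
import Pool.Agent.H195.MV.CertH

namespace Pool.Agent.H195.MV

theorem XOK1 (ν D x G : ℝ) (hG : G = 1 + ν) (hν : ν ^ 2 = 1) (hν0 : 0 ≤ ν)
    (hD1 : ν ≤ D) (hD2 : (D - 1) ^ 2 ≤ 2) (hx : (D + 1) * x = D * G) :
    XOK 1 ν D (D - 1) x G := by
  have hνe : ν = 1 := by nlinarith
  subst hνe
  have hlo : 0 ≤ D - 1 := by linarith
  have hhi : 0 ≤ (24143 / 10000) - D := by
    by_contra hcon
    push Not at hcon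
    nlinarith
  subst hG
  have hDp : 0 < D + 1 := by linarith
  have hDp2 : 0 < (D + 1) ^ 2 := by positivity
  obtain ⟨Λ, hΛ⟩ : ∃ Λ, Λ = x * (2 * (1 + 1) + x) := ⟨_, rfl⟩
  have hlm : Λ * (D + 1) ^ 2 = 1 * (2 + 2 * 1) * D * (3 * D + 2) := by
    rw [hΛ]
    linear_combination (2 * (1 + 1) * (D + 1) + (D + 1) * x + D * (1 + 1)) * hx
  have q0 : 0 ≤ (D - 1) ^ 0 * ((24143 / 10000) - D) ^ 3 :=
    mul_nonneg (pow_nonneg hlo _) (pow_nonneg hhi _)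
  have q1 : 0 ≤ (D - 1) ^ 1 * ((24143 / 10000) - D) ^ 2 :=
    mul_nonneg (pow_nonneg hlo _) (pow_nonneg hhi _)
  have q2 : 0 ≤ (D - 1) ^ 2 * ((24143 / 10000) - D) ^ 1 :=
    mul_nonneg (pow_nonneg hlo _) (pow_nonneg hhi _)
  have q3 : 0 ≤ (D - 1) ^ 3 * ((24143 / 10000) - D) ^ 0 :=
    mul_nonneg (pow_nonneg hlo _) (pow_nonneg hhi _)
  have k10 : 0 ≤ ((0:ℝ) + 1 / 2) * (2 * 1 * 1 + 1 + 0) + ((2 * 1 * 1 + 1) * D - 1 ^ 2 - 1 * 1 - 1 / 2 - (D - 1)) + (0 * (1 * (D + 1 / 2 + 1 / 2) + (D - 1) / 1) - 1 / 2 * 0) - (D + 1) * (1 + 0) ^ 2 + ((0 + 1) * Λ + (2 * 1 * 1 + 1 + 0) - 2 * D * (1 + 1) * (1 + 0)) := by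
    have hP : 0 ≤ 2 + 9 * D ^ 1 + 8 * D ^ 2 + (-3) * D ^ 3 := by
      linarith [q0, q1, q2, q3]
    refine nonneg_of_mul_nonneg_left (b := (D + 1) ^ 2) (le_of_le_of_eq hP ?_) hDp2
    linear_combination -((1:ℝ) * hlm)
  have k01 : 0 ≤ ((1:ℝ) - 1 / 2 - 1 / 2) * 1 + 1 * (1 * (D + 1 / 2 + 1 / 2) + (D - 1) / 1) - (D + 1) * 1 ^ 2 + (1 * Λ + 1 - 2 * D * (1 + 1) * 1) := by
    have hP : 0 ≤ 5 * D ^ 1 + 6 * D ^ 2 + (-3) * D ^ 3 := by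
      linarith [q0, q1, q2, q3]
    refine nonneg_of_mul_nonneg_left (b := (D + 1) ^ 2) (le_of_le_of_eq hP ?_) hDp2
    linear_combination -((1:ℝ) * hlm)
  have k11 : 0 ≤ ((1:ℝ) + 1 / 2) * (2 * 1 * 1 + 1 + 1) + ((2 * 1 * 1 + 1) * D - 1 ^ 2 - 1 * 1 - 1 / 2 - (D - 1)) + (1 * (1 * (D + 1 / 2 + 1 / 2) + (D - 1) / 1) - 1 / 2 * 1) - (D + 1) * (1 + 1) ^ 2 + ((1 + 1) * Λ + (2 * 1 * 1 + 1 + 1) - 2 * D * (1 + 1) * (1 + 1)) := by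
    have hP : 0 ≤ 4 * ((2 * D + 1) * (2 - (D - 1) ^ 2)) :=
      mul_nonneg (by norm_num) (mul_nonneg (by linarith) (by linarith))
    refine nonneg_of_mul_nonneg_left (b := (D + 1) ^ 2) (le_of_le_of_eq hP ?_) hDp2
    linear_combination -((2:ℝ) * hlm)
  intro j L hj h1 h2
  rw [← hΛ]
  interval_cases j
  · push_cast at h1 h2 ⊢
    constructor <;> linarith [k10]
  · push_cast at h1 h2 ⊢
    constructor <;> linarith [k01, k11]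

theorem XOK2 (ν D x G : ℝ) (hG : G = 2 + ν) (hν : ν ^ 2 = 2) (hν0 : 0 ≤ ν)
    (hD1 : ν ≤ D) (hD2 : (D - 1) ^ 2 ≤ 3) (hx : (D + 2) * x = D * G) :
    XOK 2 ν D 0 x G := by
  have hν1 : (7071 / 5000) ≤ ν := by nlinarith
  have hν2 : ν ≤ (14143 / 10000) := by nlinarith
  have hlo : 0 ≤ D - (707 / 500) := by linarith
  have hhi : 0 ≤ (27321 / 10000) - D := by
    by_contra hcon
    push Not at hcon
    nlinarith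
  subst hG
  have hDp : 0 < D + 2 := by linarith
  have hDp2 : 0 < (D + 2) ^ 2 := by positivity
  obtain ⟨Λ, hΛ⟩ : ∃ Λ, Λ = x * (2 * (2 + ν) + x) := ⟨_, rfl⟩
  have hlm : Λ * (D + 2) ^ 2 = 2 * (3 + 2 * ν) * D * (3 * D + 4) := by
    rw [hΛ]
    linear_combination (2 * (2 + ν) * (D + 2) + (D + 2) * x + D * (2 + ν)) * hx +
      D * (3 * D + 4) * hν
  have q00 : 0 ≤ (D - (707 / 500)) ^ 0 * ((27321 / 10000) - D) ^ 3 * (ν - (7071 / 5000)) :=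
    mul_nonneg (mul_nonneg (pow_nonneg hlo _) (pow_nonneg hhi _)) (sub_nonneg.2 hν1)
  have q01 : 0 ≤ (D - (707 / 500)) ^ 0 * ((27321 / 10000) - D) ^ 3 * ((14143 / 10000) - ν) :=
    mul_nonneg (mul_nonneg (pow_nonneg hlo _) (pow_nonneg hhi _)) (sub_nonneg.2 hν2)
  have q10 : 0 ≤ (D - (707 / 500)) ^ 1 * ((27321 / 10000) - D) ^ 2 * (ν - (7071 / 5000)) :=
    mul_nonneg (mul_nonneg (pow_nonneg hlo _) (pow_nonneg hhi _)) (sub_nonneg.2 hν1)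
  have q11 : 0 ≤ (D - (707 / 500)) ^ 1 * ((27321 / 10000) - D) ^ 2 * ((14143 / 10000) - ν) :=
    mul_nonneg (mul_nonneg (pow_nonneg hlo _) (pow_nonneg hhi _)) (sub_nonneg.2 hν2)
  have q20 : 0 ≤ (D - (707 / 500)) ^ 2 * ((27321 / 10000) - D) ^ 1 * (ν - (7071 / 5000)) :=
    mul_nonneg (mul_nonneg (pow_nonneg hlo _) (pow_nonneg hhi _)) (sub_nonneg.2 hν1)
  have q21 : 0 ≤ (D - (707 / 500)) ^ 2 * ((27321 / 10000) - D) ^ 1 * ((14143 / 10000) - ν) :=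
    mul_nonneg (mul_nonneg (pow_nonneg hlo _) (pow_nonneg hhi _)) (sub_nonneg.2 hν2)
  have q30 : 0 ≤ (D - (707 / 500)) ^ 3 * ((27321 / 10000) - D) ^ 0 * (ν - (7071 / 5000)) :=
    mul_nonneg (mul_nonneg (pow_nonneg hlo _) (pow_nonneg hhi _)) (sub_nonneg.2 hν1)
  have q31 : 0 ≤ (D - (707 / 500)) ^ 3 * ((27321 / 10000) - D) ^ 0 * ((14143 / 10000) - ν) :=
    mul_nonneg (mul_nonneg (pow_nonneg hlo _) (pow_nonneg hhi _)) (sub_nonneg.2 hν2)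
  have k10 : 0 ≤ ((0:ℝ) + 1 / 2) * (2 * 2 * ν + 2 + 0) + ((2 * 2 * ν + 2) * D - 2 ^ 2 - 2 * ν - 2 / 2 - 0) + (0 * (2 * (D + 1 / 2 + 2 / 2) + 0 / 2) - 2 / 2 * 0) - (D + 2) * (ν + 0) ^ 2 + ((0 + 1) * Λ + (2 * 2 * ν + 2 + 0) - 2 * D * (2 + ν) * (ν + 0)) := by
    have hP : 0 ≤ (-24) + 16 * ν + (-16) * D ^ 1 + 32 * D ^ 1 * ν + (-4) * D ^ 2 + 16 * D ^ 2 * ν + (-4) * D ^ 3 := by
      linarith [q00, q01, q10, q11, q20, q21, q30, q31]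
    refine nonneg_of_mul_nonneg_left (b := (D + 2) ^ 2) (le_of_le_of_eq hP ?_) hDp2
    linear_combination ((3 * D + 2) * (D + 2) ^ 2) * hν - (1:ℝ) * hlm
  have k01 : 0 ≤ ((1:ℝ) - 1 / 2 - 2 / 2) * 1 + 1 * (2 * (D + 1 / 2 + 2 / 2) + 0 / 2) - (D + 2) * 1 ^ 2 + (1 * Λ + 1 - 2 * D * (2 + ν) * 1) := by
    have hP : 0 ≤ 6 + 18 * D ^ 1 + 8 * D ^ 1 * ν + (15 / 2) * D ^ 2 + 4 * D ^ 2 * ν + (-3) * D ^ 3 + (-2) * D ^ 3 * ν := by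
      linarith [q00, q01, q10, q11, q20, q21, q30, q31]
    refine nonneg_of_mul_nonneg_left (b := (D + 2) ^ 2) (le_of_le_of_eq hP ?_) hDp2
    linear_combination -((1:ℝ) * hlm)
  have k11 : 0 ≤ ((1:ℝ) + 1 / 2) * (2 * 2 * ν + 2 + 1) + ((2 * 2 * ν + 2) * D - 2 ^ 2 - 2 * ν - 2 / 2 - 0) + (1 * (2 * (D + 1 / 2 + 2 / 2) + 0 / 2) - 2 / 2 * 1) - (D + 2) * (ν + 1) ^ 2 + ((1 + 1) * Λ + (2 * 2 * ν + 2 + 1) - 2 * D * (2 + ν) * (ν + 1)) := by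
    have hP : 0 ≤ (-6) + 16 * ν + 14 * D ^ 1 + 32 * D ^ 1 * ν + (13 / 2) * D ^ 2 + 12 * D ^ 2 * ν + (-7) * D ^ 3 + (-4) * D ^ 3 * ν := by
      linarith [q00, q01, q10, q11, q20, q21, q30, q31]
    refine nonneg_of_mul_nonneg_left (b := (D + 2) ^ 2) (le_of_le_of_eq hP ?_) hDp2
    linear_combination ((3 * D + 2) * (D + 2) ^ 2) * hν - (2:ℝ) * hlm
  have k02 : 0 ≤ ((2:ℝ) - 1 / 2 - 2 / 2) * 4 + 2 * (2 * (D + 1 / 2 + 2 / 2) + 0 / 2) - (D + 2) * 2 ^ 2 + (2 * Λ + 4 - 2 * D * (2 + ν) * 2) := by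
    have hP : 0 ≤ 16 + 32 * D ^ 1 + 16 * D ^ 1 * ν + 8 * D ^ 2 + 8 * D ^ 2 * ν + (-8) * D ^ 3 + (-4) * D ^ 3 * ν := by
      linarith [q00, q01, q10, q11, q20, q21, q30, q31]
    refine nonneg_of_mul_nonneg_left (b := (D + 2) ^ 2) (le_of_le_of_eq hP ?_) hDp2
    linear_combination -((2:ℝ) * hlm)
  have k12 : 0 ≤ ((2:ℝ) + 1 / 2) * (2 * 2 * ν + 2 + 4) + ((2 * 2 * ν + 2) * D - 2 ^ 2 - 2 * ν - 2 / 2 - 0) + (2 * (2 * (D + 1 / 2 + 2 / 2) + 0 / 2) - 2 / 2 * 4) - (D + 2) * (ν + 2) ^ 2 + ((2 + 1) * Λ + (2 * 2 * ν + 2 + 4) - 2 * D * (2 + ν) * (ν + 2)) := by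
    have hP : 0 ≤ 2 * (3 + 2 * ν) * ((2 * D + 2) * (3 - (D - 1) ^ 2)) :=
      mul_nonneg (by linarith) (mul_nonneg (by linarith) (by linarith))
    refine nonneg_of_mul_nonneg_left (b := (D + 2) ^ 2) (le_of_le_of_eq hP ?_) hDp2
    linear_combination ((3 * D + 2) * (D + 2) ^ 2) * hν - (3:ℝ) * hlm
  intro j L hj h1 h2
  rw [← hΛ]
  interval_cases j
  · push_cast at h1 h2 ⊢
    constructor <;> linarith [k10]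
  · push_cast at h1 h2 ⊢
    constructor <;> linarith [k01, k11]
  · push_cast at h1 h2 ⊢
    constructor <;> linarith [k02, k12]

theorem XOK3 (ν D x G : ℝ) (hG : G = 3 + ν) (hν : ν ^ 2 = 3) (hν0 : 0 ≤ ν)
    (hD1 : ν ≤ D) (hD2 : (D - 1) ^ 2 ≤ 4) (hx : (D + 3) * x = D * G) :
    XOK 3 ν D 0 x G := by
  have hν1 : (433 / 250) ≤ ν := by nlinarith
  have hν2 : ν ≤ (17321 / 10000) := by nlinarith
  have hlo : 0 ≤ D - (433 / 250) := by linarith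
  have hhi : 0 ≤ 3 - D := by
    by_contra hcon
    push Not at hcon
    nlinarith
  subst hG
  have hDp : 0 < D + 3 := by linarith
  have hDp2 : 0 < (D + 3) ^ 2 := by positivity
  obtain ⟨Λ, hΛ⟩ : ∃ Λ, Λ = x * (2 * (3 + ν) + x) := ⟨_, rfl⟩
  have hlm : Λ * (D + 3) ^ 2 = 3 * (4 + 2 * ν) * D * (3 * D + 6) := by
    rw [hΛ]
    linear_combination (2 * (3 + ν) * (D + 3) + (D + 3) * x + D * (3 + ν)) * hx +
      D * (3 * D + 6) * hν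
  have q00 : 0 ≤ (D - (433 / 250)) ^ 0 * (3 - D) ^ 3 * (ν - (433 / 250)) :=
    mul_nonneg (mul_nonneg (pow_nonneg hlo _) (pow_nonneg hhi _)) (sub_nonneg.2 hν1)
  have q01 : 0 ≤ (D - (433 / 250)) ^ 0 * (3 - D) ^ 3 * ((17321 / 10000) - ν) :=
    mul_nonneg (mul_nonneg (pow_nonneg hlo _) (pow_nonneg hhi _)) (sub_nonneg.2 hν2)
  have q10 : 0 ≤ (D - (433 / 250)) ^ 1 * (3 - D) ^ 2 * (ν - (433 / 250)) :=
    mul_nonneg (mul_nonneg (pow_nonneg hlo _) (pow_nonneg hhi _)) (sub_nonneg.2 hν1)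
  have q11 : 0 ≤ (D - (433 / 250)) ^ 1 * (3 - D) ^ 2 * ((17321 / 10000) - ν) :=
    mul_nonneg (mul_nonneg (pow_nonneg hlo _) (pow_nonneg hhi _)) (sub_nonneg.2 hν2)
  have q20 : 0 ≤ (D - (433 / 250)) ^ 2 * (3 - D) ^ 1 * (ν - (433 / 250)) :=
    mul_nonneg (mul_nonneg (pow_nonneg hlo _) (pow_nonneg hhi _)) (sub_nonneg.2 hν1)
  have q21 : 0 ≤ (D - (433 / 250)) ^ 2 * (3 - D) ^ 1 * ((17321 / 10000) - ν) :=
    mul_nonneg (mul_nonneg (pow_nonneg hlo _) (pow_nonneg hhi _)) (sub_nonneg.2 hν2)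
  have q30 : 0 ≤ (D - (433 / 250)) ^ 3 * (3 - D) ^ 0 * (ν - (433 / 250)) :=
    mul_nonneg (mul_nonneg (pow_nonneg hlo _) (pow_nonneg hhi _)) (sub_nonneg.2 hν1)
  have q31 : 0 ≤ (D - (433 / 250)) ^ 3 * (3 - D) ^ 0 * ((17321 / 10000) - ν) :=
    mul_nonneg (mul_nonneg (pow_nonneg hlo _) (pow_nonneg hhi _)) (sub_nonneg.2 hν2)
  have k10 : 0 ≤ ((0:ℝ) + 1 / 2) * (2 * 3 * ν + 3 + 0) + ((2 * 3 * ν + 3) * D - 3 ^ 2 - 3 * ν - 3 / 2 - 0) + (0 * (3 * (D + 1 / 2 + 3 / 2) + 0 / 3) - 3 / 2 * 0) - (D + 3) * (ν + 0) ^ 2 + ((0 + 1) * Λ + (2 * 3 * ν + 3 + 0) - 2 * D * (3 + ν) * (ν + 0)) := by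
    have hP : 0 ≤ (-135) + 54 * ν + (-72) * D ^ 1 + 72 * D ^ 1 * ν + (-15) * D ^ 2 + 24 * D ^ 2 * ν + (-6) * D ^ 3 := by
      linarith [q00, q01, q10, q11, q20, q21, q30, q31]
    refine nonneg_of_mul_nonneg_left (b := (D + 3) ^ 2) (le_of_le_of_eq hP ?_) hDp2
    linear_combination ((3 * D + 3) * (D + 3) ^ 2) * hν - (1:ℝ) * hlm
  have k01 : 0 ≤ ((1:ℝ) - 1 / 2 - 3 / 2) * 1 + 1 * (3 * (D + 1 / 2 + 3 / 2) + 0 / 3) - (D + 3) * 1 ^ 2 + (1 * Λ + 1 - 2 * D * (3 + ν) * 1) := by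
    have hP : 0 ≤ 27 + 54 * D ^ 1 + 18 * D ^ 1 * ν + 15 * D ^ 2 + 6 * D ^ 2 * ν + (-4) * D ^ 3 + (-2) * D ^ 3 * ν := by
      linarith [q00, q01, q10, q11, q20, q21, q30, q31]
    refine nonneg_of_mul_nonneg_left (b := (D + 3) ^ 2) (le_of_le_of_eq hP ?_) hDp2
    linear_combination -((1:ℝ) * hlm)
  have k11 : 0 ≤ ((1:ℝ) + 1 / 2) * (2 * 3 * ν + 3 + 1) + ((2 * 3 * ν + 3) * D - 3 ^ 2 - 3 * ν - 3 / 2 - 0) + (1 * (3 * (D + 1 / 2 + 3 / 2) + 0 / 3) - 3 / 2 * 1) - (D + 3) * (ν + 1) ^ 2 + ((1 + 1) * Λ + (2 * 3 * ν + 3 + 1) - 2 * D * (3 + ν) * (ν + 1)) := by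
    have hP : 0 ≤ (-72) + 54 * ν + 6 * D ^ 1 + 72 * D ^ 1 * ν + 4 * D ^ 2 + 18 * D ^ 2 * ν + (-10) * D ^ 3 + (-4) * D ^ 3 * ν := by
      linarith [q00, q01, q10, q11, q20, q21, q30, q31]
    refine nonneg_of_mul_nonneg_left (b := (D + 3) ^ 2) (le_of_le_of_eq hP ?_) hDp2
    linear_combination ((3 * D + 3) * (D + 3) ^ 2) * hν - (2:ℝ) * hlm
  have k02 : 0 ≤ ((2:ℝ) - 1 / 2 - 3 / 2) * 4 + 2 * (3 * (D + 1 / 2 + 3 / 2) + 0 / 3) - (D + 3) * 2 ^ 2 + (2 * Λ + 4 - 2 * D * (3 + ν) * 2) := by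
    have hP : 0 ≤ 36 + 78 * D ^ 1 + 36 * D ^ 1 * ν + 16 * D ^ 2 + 12 * D ^ 2 * ν + (-10) * D ^ 3 + (-4) * D ^ 3 * ν := by
      linarith [q00, q01, q10, q11, q20, q21, q30, q31]
    refine nonneg_of_mul_nonneg_left (b := (D + 3) ^ 2) (le_of_le_of_eq hP ?_) hDp2
    linear_combination -((2:ℝ) * hlm)
  have k12 : 0 ≤ ((2:ℝ) + 1 / 2) * (2 * 3 * ν + 3 + 4) + ((2 * 3 * ν + 3) * D - 3 ^ 2 - 3 * ν - 3 / 2 - 0) + (2 * (3 * (D + 1 / 2 + 3 / 2) + 0 / 3) - 3 / 2 * 4) - (D + 3) * (ν + 2) ^ 2 + ((2 + 1) * Λ + (2 * 3 * ν + 3 + 4) - 2 * D * (3 + ν) * (ν + 2)) := by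
    have hP : 0 ≤ (-9) + 54 * ν + 66 * D ^ 1 + 72 * D ^ 1 * ν + 11 * D ^ 2 + 12 * D ^ 2 * ν + (-16) * D ^ 3 + (-8) * D ^ 3 * ν := by
      linarith [q00, q01, q10, q11, q20, q21, q30, q31]
    refine nonneg_of_mul_nonneg_left (b := (D + 3) ^ 2) (le_of_le_of_eq hP ?_) hDp2
    linear_combination ((3 * D + 3) * (D + 3) ^ 2) * hν - (3:ℝ) * hlm
  have k03 : 0 ≤ ((3:ℝ) - 1 / 2 - 3 / 2) * 9 + 3 * (3 * (D + 1 / 2 + 3 / 2) + 0 / 3) - (D + 3) * 3 ^ 2 + (3 * Λ + 9 - 2 * D * (3 + ν) * 3) := by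
    have hP : 0 ≤ 81 + 108 * D ^ 1 + 54 * D ^ 1 * ν + 9 * D ^ 2 + 18 * D ^ 2 * ν + (-18) * D ^ 3 + (-6) * D ^ 3 * ν := by
      linarith [q00, q01, q10, q11, q20, q21, q30, q31]
    refine nonneg_of_mul_nonneg_left (b := (D + 3) ^ 2) (le_of_le_of_eq hP ?_) hDp2
    linear_combination -((3:ℝ) * hlm)
  have k13 : 0 ≤ ((3:ℝ) + 1 / 2) * (2 * 3 * ν + 3 + 9) + ((2 * 3 * ν + 3) * D - 3 ^ 2 - 3 * ν - 3 / 2 - 0) + (3 * (3 * (D + 1 / 2 + 3 / 2) + 0 / 3) - 3 / 2 * 9) - (D + 3) * (ν + 3) ^ 2 + ((3 + 1) * Λ + (2 * 3 * ν + 3 + 9) - 2 * D * (3 + ν) * (ν + 3)) := by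
    have hP : 0 ≤ 3 * (4 + 2 * ν) * ((2 * D + 3) * (4 - (D - 1) ^ 2)) :=
      mul_nonneg (by linarith) (mul_nonneg (by linarith) (by linarith))
    refine nonneg_of_mul_nonneg_left (b := (D + 3) ^ 2) (le_of_le_of_eq hP ?_) hDp2
    linear_combination ((3 * D + 3) * (D + 3) ^ 2) * hν - (4:ℝ) * hlm
  intro j L hj h1 h2
  rw [← hΛ]
  interval_cases j
  · push_cast at h1 h2 ⊢
    constructor <;> linarith [k10]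
  · push_cast at h1 h2 ⊢
    constructor <;> linarith [k01, k11]
  · push_cast at h1 h2 ⊢
    constructor <;> linarith [k02, k12]
  · push_cast at h1 h2 ⊢
    constructor <;> linarith [k03, k13]

theorem XOK4 (ν D x G : ℝ) (hG : G = 4 + ν) (hν : ν ^ 2 = 4) (hν0 : 0 ≤ ν)
    (hD1 : ν ≤ D) (hD2 : (D - 1) ^ 2 ≤ 5) (hx : (D + 4) * x = D * G) :
    XOK 4 ν D 0 x G := by
  have hνe : ν = 2 := by nlinarith
  subst hνe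
  have hlo : 0 ≤ D - 2 := by linarith
  have hhi : 0 ≤ (32361 / 10000) - D := by
    by_contra hcon
    push Not at hcon
    nlinarith
  subst hG
  have hDp : 0 < D + 4 := by linarith
  have hDp2 : 0 < (D + 4) ^ 2 := by positivity
  obtain ⟨Λ, hΛ⟩ : ∃ Λ, Λ = x * (2 * (4 + 2) + x) := ⟨_, rfl⟩
  have hlm : Λ * (D + 4) ^ 2 = 4 * (5 + 2 * 2) * D * (3 * D + 8) := by
    rw [hΛ]
    linear_combination (2 * (4 + 2) * (D + 4) + (D + 4) * x + D * (4 + 2)) * hx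
  have q0 : 0 ≤ (D - 2) ^ 0 * ((32361 / 10000) - D) ^ 3 :=
    mul_nonneg (pow_nonneg hlo _) (pow_nonneg hhi _)
  have q1 : 0 ≤ (D - 2) ^ 1 * ((32361 / 10000) - D) ^ 2 :=
    mul_nonneg (pow_nonneg hlo _) (pow_nonneg hhi _)
  have q2 : 0 ≤ (D - 2) ^ 2 * ((32361 / 10000) - D) ^ 1 :=
    mul_nonneg (pow_nonneg hlo _) (pow_nonneg hhi _)
  have q3 : 0 ≤ (D - 2) ^ 3 * ((32361 / 10000) - D) ^ 0 :=
    mul_nonneg (pow_nonneg hlo _) (pow_nonneg hhi _)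
  have k10 : 0 ≤ ((0:ℝ) + 1 / 2) * (2 * 4 * 2 + 4 + 0) + ((2 * 4 * 2 + 4) * D - 4 ^ 2 - 4 * 2 - 4 / 2 - 0) + (0 * (4 * (D + 1 / 2 + 4 / 2) + 0 / 4) - 4 / 2 * 0) - (D + 4) * (2 + 0) ^ 2 + ((0 + 1) * Λ + (2 * 4 * 2 + 4 + 0) - 2 * D * (4 + 2) * (2 + 0)) := by
    have hP : 0 ≤ (-192) + 64 * D ^ 1 + 32 * D ^ 2 + (-8) * D ^ 3 := by
      linarith [q0, q1, q2, q3]
    refine nonneg_of_mul_nonneg_left (b := (D + 4) ^ 2) (le_of_le_of_eq hP ?_) hDp2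
    linear_combination -((1:ℝ) * hlm)
  have k01 : 0 ≤ ((1:ℝ) - 1 / 2 - 4 / 2) * 7 + 1 * (4 * (D + 1 / 2 + 4 / 2) + 0 / 4) - (D + 4) * 1 ^ 2 + (1 * Λ + 7 - 2 * D * (4 + 2) * 1) := by
    have hP : 0 ≤ 40 + 164 * D ^ 1 + (77 / 2) * D ^ 2 + (-9) * D ^ 3 := by
      linarith [q0, q1, q2, q3]
    refine nonneg_of_mul_nonneg_left (b := (D + 4) ^ 2) (le_of_le_of_eq hP ?_) hDp2
    linear_combination -((1:ℝ) * hlm)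
  have k11 : 0 ≤ ((1:ℝ) + 1 / 2) * (2 * 4 * 2 + 4 + 1) + ((2 * 4 * 2 + 4) * D - 4 ^ 2 - 4 * 2 - 4 / 2 - 0) + (1 * (4 * (D + 1 / 2 + 4 / 2) + 0 / 4) - 4 / 2 * 1) - (D + 4) * (2 + 1) ^ 2 + ((1 + 1) * Λ + (2 * 4 * 2 + 4 + 1) - 2 * D * (4 + 2) * (2 + 1)) := by
    have hP : 0 ≤ (-24) + 228 * D ^ 1 + (93 / 2) * D ^ 2 + (-21) * D ^ 3 := by
      linarith [q0, q1, q2, q3]
    refine nonneg_of_mul_nonneg_left (b := (D + 4) ^ 2) (le_of_le_of_eq hP ?_) hDp2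
    linear_combination -((2:ℝ) * hlm)
  have k02 : 0 ≤ ((2:ℝ) - 1 / 2 - 4 / 2) * 4 + 2 * (4 * (D + 1 / 2 + 4 / 2) + 0 / 4) - (D + 4) * 2 ^ 2 + (2 * Λ + 4 - 2 * D * (4 + 2) * 2) := by
    have hP : 0 ≤ 96 + 304 * D ^ 1 + 62 * D ^ 2 + (-20) * D ^ 3 := by
      linarith [q0, q1, q2, q3]
    refine nonneg_of_mul_nonneg_left (b := (D + 4) ^ 2) (le_of_le_of_eq hP ?_) hDp2
    linear_combination -((2:ℝ) * hlm)
  have k12 : 0 ≤ ((2:ℝ) + 1 / 2) * (2 * 4 * 2 + 4 + 4) + ((2 * 4 * 2 + 4) * D - 4 ^ 2 - 4 * 2 - 4 / 2 - 0) + (2 * (4 * (D + 1 / 2 + 4 / 2) + 0 / 4) - 4 / 2 * 4) - (D + 4) * (2 + 2) ^ 2 + ((2 + 1) * Λ + (2 * 4 * 2 + 4 + 4) - 2 * D * (4 + 2) * (2 + 2)) := by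
    have hP : 0 ≤ 96 + 336 * D ^ 1 + 42 * D ^ 2 + (-36) * D ^ 3 := by
      linarith [q0, q1, q2, q3]
    refine nonneg_of_mul_nonneg_left (b := (D + 4) ^ 2) (le_of_le_of_eq hP ?_) hDp2
    linear_combination -((3:ℝ) * hlm)
  have k03 : 0 ≤ ((3:ℝ) - 1 / 2 - 4 / 2) * 9 + 3 * (4 * (D + 1 / 2 + 4 / 2) + 0 / 4) - (D + 4) * 3 ^ 2 + (3 * Λ + 9 - 2 * D * (4 + 2) * 3) := by
    have hP : 0 ≤ 120 + 396 * D ^ 1 + (135 / 2) * D ^ 2 + (-33) * D ^ 3 := by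
      linarith [q0, q1, q2, q3]
    refine nonneg_of_mul_nonneg_left (b := (D + 4) ^ 2) (le_of_le_of_eq hP ?_) hDp2
    linear_combination -((3:ℝ) * hlm)
  have k13 : 0 ≤ ((3:ℝ) + 1 / 2) * (2 * 4 * 2 + 4 + 9) + ((2 * 4 * 2 + 4) * D - 4 ^ 2 - 4 * 2 - 4 / 2 - 0) + (3 * (4 * (D + 1 / 2 + 4 / 2) + 0 / 4) - 4 / 2 * 9) - (D + 4) * (2 + 3) ^ 2 + ((3 + 1) * Λ + (2 * 4 * 2 + 4 + 9) - 2 * D * (4 + 2) * (2 + 3)) := by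
    have hP : 0 ≤ 264 + 436 * D ^ 1 + (49 / 2) * D ^ 2 + (-53) * D ^ 3 := by
      linarith [q0, q1, q2, q3]
    refine nonneg_of_mul_nonneg_left (b := (D + 4) ^ 2) (le_of_le_of_eq hP ?_) hDp2
    linear_combination -((4:ℝ) * hlm)
  have k04 : 0 ≤ ((4:ℝ) - 1 / 2 - 4 / 2) * 16 + 4 * (4 * (D + 1 / 2 + 4 / 2) + 0 / 4) - (D + 4) * 4 ^ 2 + (4 * Λ + 16 - 2 * D * (4 + 2) * 4) := by
    have hP : 0 ≤ 256 + 512 * D ^ 1 + 64 * D ^ 2 + (-48) * D ^ 3 := by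
      linarith [q0, q1, q2, q3]
    refine nonneg_of_mul_nonneg_left (b := (D + 4) ^ 2) (le_of_le_of_eq hP ?_) hDp2
    linear_combination -((4:ℝ) * hlm)
  have k14 : 0 ≤ ((4:ℝ) + 1 / 2) * (2 * 4 * 2 + 4 + 16) + ((2 * 4 * 2 + 4) * D - 4 ^ 2 - 4 * 2 - 4 / 2 - 0) + (4 * (4 * (D + 1 / 2 + 4 / 2) + 0 / 4) - 4 / 2 * 16) - (D + 4) * (2 + 4) ^ 2 + ((4 + 1) * Λ + (2 * 4 * 2 + 4 + 16) - 2 * D * (4 + 2) * (2 + 4)) := by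
    have hP : 0 ≤ 36 * ((2 * D + 4) * (5 - (D - 1) ^ 2)) :=
      mul_nonneg (by norm_num) (mul_nonneg (by linarith) (by linarith))
    refine nonneg_of_mul_nonneg_left (b := (D + 4) ^ 2) (le_of_le_of_eq hP ?_) hDp2
    linear_combination -((5:ℝ) * hlm)
  intro j L hj h1 h2
  rw [← hΛ]
  interval_cases j
  · push_cast at h1 h2 ⊢
    constructor <;> linarith [k10]
  · push_cast at h1 h2 ⊢
    constructor <;> linarith [k01, k11]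
  · push_cast at h1 h2 ⊢
    constructor <;> linarith [k02, k12]
  · push_cast at h1 h2 ⊢
    constructor <;> linarith [k03, k13]
  · push_cast at h1 h2 ⊢
    constructor <;> linarith [k04, k14]

end Pool.Agent.H195.MV
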